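import Pool.Agent.Helper84.BD.Two

/-!
Asymptotics: the number of factors of the summands of `X^m` is small compared with `m`.
-/

universe u v w

open scoped TensorProduct

namespace Pool.Agent.H84BD

open Pool.Agent.H80Green

variable {k : Type u} [Field k] {G : Type v} [Group G]

/-- Some tensor power `X^m` is a direct summand of a sum of tensor products of at most `δ m` modules
of dimension at most two. -/
def Sm (X : Md k G) (δ : ℝ) : Prop :=
  ∃ m : ℕ, 0 < m ∧ ∃ (S : List (Md k G)) (t : ℕ), (∀ V ∈ S, V.dim ≤ 2) ∧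
    Add (Cl S t) (X.tpow m) ∧ (t : ℝ) ≤ δ * m

lemma Sm.mult {X : Md k G} {δ : ℝ} (h : Sm X δ) (N : ℕ) :
    ∃ m : ℕ, N ≤ m ∧ 0 < m ∧ ∃ (S : List (Md k G)) (t : ℕ), (∀ V ∈ S, V.dim ≤ 2) ∧
      Add (Cl S t) (X.tpow m) ∧ (t : ℝ) ≤ δ * m := by
  obtain ⟨m, hm, S, t, hS, hA, ht⟩ := h
  refine ⟨m * (N + 1), ?_, by positivity, S, t * (N + 1), hS,
    Add.of_iso (iso_tpow_mul X m (N + 1)) (add_tpow hA (N + 1)), ?_⟩
  · calc N ≤ 1 * (N + 1) := by omega
      _ ≤ m * (N + 1) := Nat.mul_le_mul_right _ hm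
  · push_cast
    rw [← mul_assoc]
    exact mul_le_mul_of_nonneg_right ht (by positivity)

lemma Sm.mono {X : Md k G} {δ δ' : ℝ} (h : Sm X δ) (hd : δ ≤ δ') : Sm X δ' := by
  obtain ⟨m, hm, S, t, hS, hA, ht⟩ := h
  exact ⟨m, hm, S, t, hS, hA, ht.trans (mul_le_mul_of_nonneg_right hd (Nat.cast_nonneg _))⟩

lemma Sm.step (p q : ℕ) [Fact p.Prime] [CharP k p] (hpq : p = q + 2) {X : Md k G} {δ : ℝ}
    (hδ : 0 < δ) (h : Sm X δ) :
    Sm X ((2 * (2 * q + 2) + 1) / (2 * (2 * q + 3)) * δ) := by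
  obtain ⟨m, hm, S, t, hS, hA, ht⟩ := h
  obtain ⟨T, h1, h2, h3⟩ := star_list p q hpq S hS
  have hm' : (0 : ℝ) < m := by exact_mod_cast hm
  obtain ⟨n, hn⟩ := exists_nat_ge
    ((2 * (2 * q + 3) * (S.length * (2 * q + 3) + 1)) / (δ * m) : ℝ)
  have hA2 := add_tpow hA (n + 1)
  refine ⟨m * (n + 1), by positivity, T,
    ((2 * q + 2) * (t * (n + 1)) + S.length * ((2 * q + 3) * (2 * q + 3))) / (2 * q + 3) + 1,
    h2, ?_, ?_⟩
  · refine Add.of_iso (iso_tpow_mul X m (n + 1)) (Add.bind hA2 fun W hW => ?_)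
    exact reduce (by omega) (by omega) S h1 h3 _ W hW _
      (Nat.lt_mul_div_succ _ (by omega)).le
  · have hd : (0 : ℝ) < δ * m := by positivity
    rw [div_le_iff₀ hd] at hn
    have hM : (0 : ℝ) < 2 * q + 3 := by positivity
    have hdiv : ((((2 * q + 2) * (t * (n + 1)) + S.length * ((2 * q + 3) * (2 * q + 3))) /
        (2 * q + 3) : ℕ) : ℝ) ≤ ((2 * q + 2) * (t * (n + 1)) +
          S.length * ((2 * q + 3) * (2 * q + 3))) / (2 * q + 3) := by
      have := @Nat.cast_div_le ℝ _ _ _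
        ((2 * q + 2) * (t * (n + 1)) + S.length * ((2 * q + 3) * (2 * q + 3))) (2 * q + 3)
      push_cast at this
      exact this
    rw [Nat.cast_add, Nat.cast_one]
    refine (add_le_add_left hdiv 1).trans ?_
    rw [div_add_one hM.ne', div_mul_eq_mul_div, div_mul_eq_mul_div, div_le_div_iff₀ hM
      (by positivity)]
    push_cast
    have ht2 : (t : ℝ) * (n + 1) ≤ δ * m * (n + 1) :=
      mul_le_mul_of_nonneg_right ht (by positivity)
    have e1 : (2 * (q : ℝ) + 2) * (t * (n + 1)) ≤ (2 * q + 2) * (δ * m * (n + 1)) :=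
      mul_le_mul_of_nonneg_left ht2 (by positivity)
    have e2 : (0 : ℝ) ≤ δ * m := hd.le
    have e3 : 2 * ((2 * (q : ℝ) + 2) * (t * (n + 1)) +
        S.length * ((2 * q + 3) * (2 * q + 3)) + (2 * q + 3)) ≤
        (2 * (2 * q + 2) + 1) * δ * (m * (n + 1)) := by
      nlinarith
    calc _ = (2 * ((2 * (q : ℝ) + 2) * (t * (n + 1)) +
        S.length * ((2 * q + 3) * (2 * q + 3)) + (2 * q + 3))) * (2 * q + 3) := by ring
      _ ≤ ((2 * (2 * q + 2) + 1) * δ * (m * (n + 1))) * (2 * q + 3) :=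
          mul_le_mul_of_nonneg_right e3 hM.le
      _ = _ := by ring

theorem Sm.all (p : ℕ) [hp : Fact p.Prime] [CharP k p] {X : Md k G} {δ : ℝ} (hδ : 0 < δ)
    (h : Sm X δ) {ε : ℝ} (hε : 0 < ε) : Sm X ε := by
  obtain ⟨q, hq⟩ : ∃ q, p = q + 2 := ⟨p - 2, by have := hp.out.two_le; omega⟩
  set θ : ℝ := (2 * (2 * q + 2) + 1) / (2 * (2 * q + 3)) with hθ
  have h0 : 0 < θ := by positivity
  have h1 : θ < 1 := by
    rw [hθ, div_lt_one (by positivity)]
    linarith
  have key : ∀ j : ℕ, Sm X (θ ^ j * δ) := by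
    intro j
    induction j with
    | zero => rwa [pow_zero, one_mul]
    | succ j ih =>
      have := Sm.step p q hq (by positivity) ih
      rwa [← hθ, ← mul_assoc, ← pow_succ'] at this
  obtain ⟨j, hj⟩ := exists_pow_lt_of_lt_one (div_pos hε hδ) h1
  rw [lt_div_iff₀ hδ] at hj
  exact (key j).mono hj.le

/-- The least class of modules which contains the modules of dimension at most two and is closed
under direct sums, tensor products and direct summands. -/
inductive Gen : Md k G → Prop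
  | two (X : Md k G) (h : X.dim ≤ 2) : Gen X
  | sum (X Y : Md k G) (hX : Gen X) (hY : Gen Y) : Gen (X.prod Y)
  | tensor (X Y : Md k G) (hX : Gen X) (hY : Gen Y) : Gen (X.tensor Y)
  | summand (X Y Z : Md k G) (h : Md.Isom Z (X.prod Y)) (hZ : Gen Z) : Gen X

lemma Gen.cl {X : Md k G} (h : Gen X) : ∃ (S : List (Md k G)) (t : ℕ),
    (∀ V ∈ S, V.dim ≤ 2) ∧ Add (Cl S t) X := by
  induction h with
  | two X h =>
    refine ⟨[X], 1, fun V hV => ?_, Add.of_mem (Cl.mem X (List.mem_singleton.2 rfl))⟩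
    rw [List.mem_singleton] at hV
    rwa [hV]
  | sum X Y hX hY ih1 ih2 =>
    obtain ⟨S, t, hS, h1⟩ := ih1
    obtain ⟨S', t', hS', h2⟩ := ih2
    refine ⟨S ++ S', t + t', fun V hV => ?_, Add.prod
      (add_mono (Nat.le_add_right _ _) (add_subset (fun V hV => List.mem_append_left _ hV) h1))
      (add_mono (Nat.le_add_left _ _) (add_subset (fun V hV => List.mem_append_right _ hV) h2))⟩
    rcases List.mem_append.1 hV with h | h
    · exact hS V h
    · exact hS' V h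
  | tensor X Y hX hY ih1 ih2 =>
    obtain ⟨S, t, hS, h1⟩ := ih1
    obtain ⟨S', t', hS', h2⟩ := ih2
    refine ⟨S ++ S', t + t', fun V hV => ?_, Add.tensor
      (add_subset (fun V hV => List.mem_append_left _ hV) h1)
      (add_subset (fun V hV => List.mem_append_right _ hV) h2)
      fun W W' hW hW' => Add.of_mem (Cl.tensor _ _ _ _ hW hW')⟩
    rcases List.mem_append.1 hV with h | h
    · exact hS V h
    · exact hS' V h
  | summand X Y Z h hZ ih =>
    obtain ⟨S, t, hS, h1⟩ := ih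
    exact ⟨S, t, hS, Add.of_ret
      ((Ret.prod_left X Y).trans (Ret.of_iso' ((Md.isom_iff _ _).1 h))) h1⟩

theorem Gen.sm (p : ℕ) [Fact p.Prime] [CharP k p] {X : Md k G} (h : Gen X) {ε : ℝ}
    (hε : 0 < ε) : Sm X ε := by
  obtain ⟨S, t, hS, h1⟩ := h.cl
  have h2 : Sm X ((t : ℝ) + 1) :=
    ⟨1, one_pos, S, t, hS, Add.of_iso (iso_tpow_one X) h1, by simp⟩
  exact h2.all p (by positivity) hε

end Pool.Agent.H84BD
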