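import Pool.Agent.Helper84.BD.Star

/-!
Classes of retracts of tensor products of modules of dimension at most two, and the saving in the
number of factors for high tensor powers.
-/

universe u v w

open scoped TensorProduct

namespace Pool.Agent.H84BD

open Pool.Agent.H80Green

variable {k : Type u} [Field k] {G : Type v} [Group G]

/-- Retracts of tensor products of `r` modules of the list `S` and modules of dimension at most
one. -/
inductive Cl (S : List (Md k G)) : ℕ → Md k G → Prop
  | one (X : Md k G) (h : X.dim ≤ 1) : Cl S 0 X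
  | mem (X : Md k G) (h : X ∈ S) : Cl S 1 X
  | tensor (r s : ℕ) (X Y : Md k G) (hX : Cl S r X) (hY : Cl S s Y) : Cl S (r + s) (X.tensor Y)
  | ret (r : ℕ) (X Y : Md k G) (h : Ret X Y) (hY : Cl S r Y) : Cl S r X
  | mono (r s : ℕ) (X : Md k G) (h : r ≤ s) (hX : Cl S r X) : Cl S s X

lemma Ret.dim_le {X Y : Md k G} (h : Ret X Y) : X.dim ≤ Y.dim := by
  obtain ⟨i, r, -, -, h⟩ := h
  exact LinearMap.finrank_le_finrank_of_injective (f := i)
    (fun x y hxy => by rw [← h x, ← h y, hxy])

lemma Cl.dim_le {S : List (Md k G)} (hS : ∀ V ∈ S, V.dim ≤ 2) {r : ℕ} {X : Md k G}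
    (h : Cl S r X) : X.dim ≤ 2 ^ r := by
  induction h with
  | one X h => simpa using h
  | mem X h => simpa using hS X h
  | tensor r s X Y hX hY ih1 ih2 =>
    rw [Md.dim_tensor, pow_add]
    exact Nat.mul_le_mul ih1 ih2
  | ret r X Y h hY ih => exact h.dim_le.trans ih
  | mono r s X h hX ih => exact ih.trans (Nat.pow_le_pow_right (by norm_num) h)

lemma Cl.subset {S T : List (Md k G)} (hST : ∀ V ∈ S, V ∈ T) {r : ℕ} {X : Md k G}
    (h : Cl S r X) : Cl T r X := by
  induction h with
  | one X h => exact Cl.one X h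
  | mem X h => exact Cl.mem X (hST X h)
  | tensor r s X Y hX hY ih1 ih2 => exact Cl.tensor r s X Y ih1 ih2
  | ret r X Y h hY ih => exact Cl.ret r X Y h ih
  | mono r s X h hX ih => exact Cl.mono r s X h ih

lemma Cl.nil {r : ℕ} {X : Md k G} (h : Cl [] r X) (T : List (Md k G)) : Cl T 0 X := by
  induction h with
  | one X h => exact Cl.one X h
  | mem X h => simp at h
  | tensor r s X Y hX hY ih1 ih2 => exact Cl.tensor 0 0 X Y ih1 ih2
  | ret r X Y h hY ih => exact Cl.ret 0 X Y h ih
  | mono r s X h hX ih => exact ih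

/-! ### tensor powers -/

lemma iso_tensor_congr {X Y X' Y' : Md k G} (h : Md.Iso X X') (h' : Md.Iso Y Y') :
    Md.Iso (X.tensor Y) (X'.tensor Y') := by
  obtain ⟨e, he⟩ := h
  obtain ⟨e', he'⟩ := h'
  exact ⟨TensorProduct.congr e e', equiv_tensor e.toLinearMap e'.toLinearMap he he'⟩

lemma iso_refl (X : Md k G) : Md.Iso X X := ⟨LinearEquiv.refl k _, fun _ _ => rfl⟩

lemma iso_triv' (X : Md k G) : Md.Iso (X.tensor (Md.triv k G)) X :=
  (iso_comm _ _).trans (iso_triv X)

lemma iso_tpow_add (X : Md k G) (a b : ℕ) :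
    Md.Iso (X.tpow (a + b)) ((X.tpow a).tensor (X.tpow b)) := by
  induction b with
  | zero => exact (iso_triv' _).symm
  | succ b ih =>
    exact (iso_tensor_congr ih (iso_refl X)).trans (iso_assoc _ _ _)

lemma iso_tpow_mul (X : Md k G) (a b : ℕ) :
    Md.Iso (X.tpow (a * b)) ((X.tpow a).tpow b) := by
  induction b with
  | zero => exact iso_refl _
  | succ b ih =>
    exact (iso_tpow_add X (a * b) a).trans (iso_tensor_congr ih (iso_refl _))

lemma ret_tpow {X Y : Md k G} (h : Ret X Y) (m : ℕ) : Ret (X.tpow m) (Y.tpow m) := by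
  induction m with
  | zero => exact Ret.refl _
  | succ m ih => exact ih.tensor h

lemma iso_tpow {X Y : Md k G} (h : Md.Iso X Y) (m : ℕ) : Md.Iso (X.tpow m) (Y.tpow m) := by
  induction m with
  | zero => exact iso_refl _
  | succ m ih => exact iso_tensor_congr ih h

lemma iso_tpow_one (X : Md k G) : Md.Iso (X.tpow 1) X := iso_triv X

lemma cl_tpow {S : List (Md k G)} {r : ℕ} {X : Md k G} (h : Cl S r X) (m : ℕ) :
    Cl S (r * m) (X.tpow m) := by
  induction m with
  | zero =>
    refine Cl.one _ ?_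
    rw [Md.dim_tpow, pow_zero]
  | succ m ih => exact Cl.tensor _ _ _ _ ih h

lemma add_tpow {S : List (Md k G)} {r : ℕ} {X : Md k G} (h : Add (Cl S r) X) (m : ℕ) :
    Add (Cl S (r * m)) (X.tpow m) := by
  induction m with
  | zero =>
    refine Add.of_mem (Cl.one _ ?_)
    rw [Md.dim_tpow, pow_zero]
  | succ m ih => exact Add.tensor ih h fun W W' hW hW' => Add.of_mem (Cl.tensor _ _ _ _ hW hW')

lemma add_mono {S : List (Md k G)} {r s : ℕ} (hrs : r ≤ s) {X : Md k G} (h : Add (Cl S r) X) :
    Add (Cl S s) X := Add.mono (fun W hW => Cl.mono r s W hrs hW) h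

lemma add_subset {S T : List (Md k G)} (hST : ∀ V ∈ S, V ∈ T) {r : ℕ} {X : Md k G}
    (h : Add (Cl S r) X) : Add (Cl T r) X := Add.mono (fun W hW => hW.subset hST) h

/-! ### one variable -/

/-- exchange of the middle factors -/
lemma iso_mid (A B C D : Md k G) :
    Md.Iso ((A.tensor B).tensor (C.tensor D)) ((A.tensor C).tensor (B.tensor D)) := by
  refine (iso_assoc A B (C.tensor D)).trans ?_
  refine Md.Iso.trans ?_ (iso_assoc A C (B.tensor D)).symm
  refine iso_tensor_congr (iso_refl A) ?_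
  refine (iso_assoc B C D).symm.trans ?_
  refine (iso_tensor_congr (iso_comm B C) (iso_refl D)).trans (iso_assoc C B D)

lemma Cl.split {V : Md k G} {S : List (Md k G)} {r : ℕ} {X : Md k G} (h : Cl (V :: S) r X) :
    ∃ c, c ≤ r ∧ ∃ Y, Cl S (r - c) Y ∧ Ret X ((V.tpow c).tensor Y) := by
  induction h with
  | one X h =>
    exact ⟨0, le_rfl, X, Cl.one X h, Ret.of_iso' (iso_triv X)⟩
  | mem X h =>
    rcases List.mem_cons.1 h with h | h
    · refine ⟨1, le_rfl, Md.triv k G, Cl.one _ (le_of_eq (Module.finrank_self k)), ?_⟩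
      rw [h]
      exact Ret.of_iso' ((iso_triv' _).trans (iso_tpow_one V))
    · exact ⟨0, Nat.zero_le _, X, Cl.mem X h, Ret.of_iso' (iso_triv X)⟩
  | tensor r s X Y hX hY ih1 ih2 =>
    obtain ⟨c, hc, X', hX', h1⟩ := ih1
    obtain ⟨d, hd, Y', hY', h2⟩ := ih2
    refine ⟨c + d, by omega, X'.tensor Y', ?_, ?_⟩
    · rw [show r + s - (c + d) = (r - c) + (s - d) by omega]
      exact Cl.tensor _ _ _ _ hX' hY'
    · refine (h1.tensor h2).trans (Ret.of_iso ?_)
      exact (iso_mid _ _ _ _).trans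
        (iso_tensor_congr (iso_tpow_add V c d).symm (iso_refl _))
  | ret r X Y h hY ih =>
    obtain ⟨c, hc, Y', hY', h1⟩ := ih
    exact ⟨c, hc, Y', hY', h.trans h1⟩
  | mono r s X h hX ih =>
    obtain ⟨c, hc, Y', hY', h1⟩ := ih
    exact ⟨c, by omega, Y', Cl.mono _ _ _ (by omega) hY', h1⟩

lemma tp {V : Md k G} {T : List (Md k G)} (hV : V ∈ T) {M R : ℕ}
    (h : Add (Cl T R) (V.tpow M)) (q e : ℕ) : Add (Cl T (R * q + e)) (V.tpow (M * q + e)) := by
  refine Add.of_iso (iso_tpow_add V (M * q) e) ?_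
  refine Add.tensor (Add.of_iso (iso_tpow_mul V M q) (add_tpow h q))
    (Add.of_mem (cl_tpow (Cl.mem V hV) e)) fun W W' hW hW' => Add.of_mem ?_
  rw [one_mul] at hW'
  exact Cl.tensor _ _ _ _ hW hW'

lemma reduce {T : List (Md k G)} {M R : ℕ} (hM : 0 < M) (hRM : R ≤ M) :
    ∀ (S : List (Md k G)), (∀ V ∈ S, V ∈ T) → (∀ V ∈ S, Add (Cl T R) (V.tpow M)) →
    ∀ (r : ℕ) (X : Md k G), Cl S r X → ∀ t : ℕ, R * r + S.length * (M * M) ≤ M * t →
      Add (Cl T t) X := by
  intro S
  induction S with
  | nil =>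
    intro _ _ r X hX t _
    exact Add.of_mem (Cl.mono 0 t X (Nat.zero_le _) (hX.nil T))
  | cons V S ih =>
    intro hT hA r X hX t ht
    obtain ⟨c, hc, Y, hY, h1⟩ := hX.split
    have hdiv : M * (c / M) + c % M = c := Nat.div_add_mod c M
    have hmod : c % M < M := Nat.mod_lt c hM
    set q := c / M with hq
    set e := c % M with he
    have e1 : M * (R * q + e) ≤ R * c + M * M := by
      have : R * c = R * (M * q) + R * e := by rw [← hdiv]; ring
      rw [this]
      have : M * e ≤ M * M := Nat.mul_le_mul_left M hmod.le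
      calc M * (R * q + e) = R * (M * q) + M * e := by ring
        _ ≤ R * (M * q) + R * e + M * M := by omega
    have e2 : R * c + R * (r - c) = R * r := by
      rw [← mul_add, show c + (r - c) = r by omega]
    have e3 : (V :: S).length * (M * M) = S.length * (M * M) + M * M := by
      rw [List.length_cons]; ring
    rw [e3] at ht
    have e4 : M * (R * q + e) + (R * (r - c) + S.length * (M * M)) ≤ M * t := by omega
    have e5 : R * q + e ≤ t := Nat.le_of_mul_le_mul_left (by omega) hM
    have e6 : R * (r - c) + S.length * (M * M) ≤ M * (t - (R * q + e)) := by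
      rw [Nat.mul_sub M t]; omega
    have a1 : Add (Cl T (R * q + e)) (V.tpow c) := by
      have := tp (hT V List.mem_cons_self) (hA V List.mem_cons_self) q e
      rwa [hdiv] at this
    have a2 := ih (fun W hW => hT W (List.mem_cons_of_mem _ hW))
      (fun W hW => hA W (List.mem_cons_of_mem _ hW)) (r - c) Y hY _ e6
    refine Add.of_ret h1 (Add.tensor a1 a2 fun W W' hW hW' => Add.of_mem ?_)
    have := Cl.tensor _ _ _ _ hW hW'
    rwa [show R * q + e + (t - (R * q + e)) = t by omega] at this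

end Pool.Agent.H84BD
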