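import Pool.Agent.Helper84.BD.Ind

/-!
Subexponential decomposition of tensor powers: passage from a subgroup of finite index prime to
the characteristic, the class generated by the modules of dimension at most two, and
self-conjugacy of dimension bounded species.
-/

universe u v w

open scoped TensorProduct

namespace Pool.Agent.H84BD

open Pool.Agent.H80Green

variable {k : Type u} [Field k] {G : Type v} [Group G]

/-- For every `ε > 0` some tensor power `X^m`, `m > 0`, is a direct sum of modules of dimension at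
most `exp (ε m)`. -/
def Subexp (X : Md k G) : Prop :=
  ∀ ε : ℝ, 0 < ε → ∃ m : ℕ, 0 < m ∧ ∃ l : List (Md k G),
    Md.Isom (X.tpow m) (Md.sum l) ∧ ∀ W ∈ l, (W.dim : ℝ) ≤ Real.exp (ε * m)

/-- modules of dimension at most `r` -/
def Le (r : ℝ) (W : Md k G) : Prop := (W.dim : ℝ) ≤ r

lemma add_le_tpow {X : Md k G} {r : ℝ} (hr : 0 ≤ r) (h : Add (Le r) X) (c : ℕ) :
    Add (Le (r ^ c)) (X.tpow c) := by
  induction c with
  | zero =>
    refine Add.of_mem ?_
    show (((X.tpow 0).dim : ℕ) : ℝ) ≤ r ^ 0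
    rw [Md.dim_tpow, pow_zero, pow_zero, Nat.cast_one]
  | succ c ih =>
    refine Add.tensor ih h fun W W' hW hW' => Add.of_mem ?_
    show (((W.tensor W').dim : ℕ) : ℝ) ≤ r ^ (c + 1)
    rw [Md.dim_tensor, Nat.cast_mul, pow_succ]
    exact mul_le_mul hW hW' (Nat.cast_nonneg _) (pow_nonneg hr _)

lemma Subexp.mult {X : Md k G} (h : Subexp X) {ε : ℝ} (hε : 0 < ε) (N : ℕ) :
    ∃ m : ℕ, N ≤ m ∧ 0 < m ∧ Add (Le (Real.exp (ε * m))) (X.tpow m) := by
  obtain ⟨m, hm, l, hl, hd⟩ := h ε hε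
  have h1 : Add (Le (Real.exp (ε * m))) (X.tpow m) :=
    ⟨l, hd, Ret.of_iso ((Md.isom_iff _ _).1 hl)⟩
  refine ⟨m * (N + 1), ?_, by positivity, ?_⟩
  · calc N ≤ 1 * (N + 1) := by omega
      _ ≤ m * (N + 1) := Nat.mul_le_mul_right _ hm
  · have h2 := Add.of_iso (iso_tpow_mul X m (N + 1)) (add_le_tpow (Real.exp_pos _).le h1 (N + 1))
    rw [← Real.exp_nat_mul] at h2
    have e : ((N + 1 : ℕ) : ℝ) * (ε * m) = ε * ((m * (N + 1) : ℕ) : ℝ) := by
      push_cast
      ring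
    rwa [e] at h2

/-- **Reduction to a subgroup of finite index prime to the characteristic.** -/
theorem subexp_of_res (N : Subgroup G) [N.FiniteIndex] (hN : (N.index : k) ≠ 0) (X : Md k G)
    (hX : Subexp (res N.subtype X)) : Subexp X := by
  intro ε hε
  obtain ⟨N0, hN0⟩ := exists_nat_ge ((N.index : ℝ) / (ε / 2))
  obtain ⟨m, hm0, hm, hA⟩ := hX.mult (half_pos hε) N0
  obtain ⟨l, hl, hind⟩ := indec_decomp _ (X.tpow m) rfl
  refine ⟨m, hm, l, (Md.isom_iff _ _).2 hl, fun W hW => ?_⟩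
  have h1 : Add (Le (Real.exp (ε / 2 * m))) (res N.subtype W) := by
    refine Add.of_ret (ret_res N.subtype ((ret_of_mem_sum l hW).trans (Ret.of_iso' hl))) ?_
    exact Add.of_iso (res_tpow N.subtype X m) hA
  obtain ⟨l', hl', h2⟩ := h1
  obtain ⟨U, hU, h3⟩ := dim_indec N hN W (hind W hW) l' h2
  have h4 : (U.dim : ℝ) ≤ Real.exp (ε / 2 * m) := hl' U hU
  have h6 : (N.index : ℝ) ≤ Real.exp (ε / 2 * m) := by
    have h7 : (N.index : ℝ) ≤ ε / 2 * m := by
      rw [div_le_iff₀ (half_pos hε)] at hN0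
      have h8 : (N0 : ℝ) ≤ m := by exact_mod_cast hm0
      calc (N.index : ℝ) ≤ N0 * (ε / 2) := hN0
        _ ≤ m * (ε / 2) := mul_le_mul_of_nonneg_right h8 (half_pos hε).le
        _ = ε / 2 * m := mul_comm _ _
    have h9 := Real.add_one_le_exp (ε / 2 * m)
    linarith
  calc (W.dim : ℝ) ≤ N.index * U.dim := by exact_mod_cast h3
    _ ≤ Real.exp (ε / 2 * m) * Real.exp (ε / 2 * m) :=
        mul_le_mul h6 h4 (Nat.cast_nonneg _) (Real.exp_pos _).le
    _ = Real.exp (ε * m) := by rw [← Real.exp_add]; congr 1; ring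

/-- **The class generated by the modules of dimension at most two.** -/
theorem subexp_of_gen (p : ℕ) [Fact p.Prime] [CharP k p] (X : Md k G) (hX : Gen X) :
    Subexp X := by
  intro ε hε
  obtain ⟨m, hm, S, t, hS, hA, ht⟩ := hX.sm p hε
  obtain ⟨l, hl, h2⟩ := hA
  obtain ⟨l', hl', h3⟩ := exchange (MonoidHom.id G) Function.surjective_id l _ (X.tpow m) rfl h2
  refine ⟨m, hm, l', (Md.isom_iff _ _).2 hl', fun W hW => ?_⟩
  obtain ⟨U, hU, h4⟩ := h3 W hW
  have h5 : W.dim ≤ 2 ^ t := (Ret.dim_le h4).trans ((hl U hU).dim_le hS)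
  have h6 : (W.dim : ℝ) ≤ 2 ^ t := by exact_mod_cast h5
  refine h6.trans ?_
  have h11 : (2 : ℝ) ≤ Real.exp 1 := by
    have := Real.add_one_le_exp (1 : ℝ)
    linarith
  calc (2 : ℝ) ^ t ≤ Real.exp 1 ^ t := pow_le_pow_left₀ (by norm_num) h11 t
    _ = Real.exp t := by rw [← Real.exp_nat_mul, mul_one]
    _ ≤ Real.exp (ε * m) := Real.exp_le_exp.2 ht

lemma negl_zero (s : Spc k G) : s.Negligible (Md.zero k G) := by
  have key : ∀ C : Md k G, C.dim = 0 → s.val C = 0 := by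
    intro C hC
    have hs : Subsingleton C.carrier := Module.finrank_zero_iff.1 hC
    have h1 : Md.Isom C (C.prod C) := by
      rw [Md.isom_iff]
      exact ⟨⟨⟨⟨fun x => (x, x), fun _ _ => rfl⟩, fun _ _ => rfl⟩, fun x => x.1,
        fun _ => hs.elim _ _, fun _ => Prod.ext (hs.elim _ _) (hs.elim _ _)⟩,
        fun _ _ => rfl⟩
    have h2 := s.iso _ _ h1
    rw [s.add] at h2
    exact left_eq_add.1 h2
  intro Y C C' h
  have hd := ((Md.isom_iff _ _).1 h).dim_eq
  rw [Md.dim_tensor, Md.dim_zero, zero_mul, Md.dim_prod] at hd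
  have hC : C.dim = 0 := by omega
  refine ⟨key C hC, key C.dual ?_⟩
  show Module.finrank k (Module.Dual k C.carrier) = 0
  rw [Subspace.dual_finrank_eq]
  exact hC

lemma Subexp.growth {X : Md k G} (h : Subexp X) (s : Spc k G) : s.GrowthBound X 1 := by
  refine Spc.GrowthBound.of_subexp fun ε hε => ?_
  obtain ⟨m, hm, l, hl, hd⟩ := h ε hε
  refine ⟨m, hm, l, Md.zero k G, ?_, negl_zero s, hd⟩
  rw [Md.isom_iff] at hl ⊢
  refine hl.trans ?_
  exact ⟨⟨⟨⟨fun x => (x, PUnit.unit), fun _ _ => rfl⟩, fun _ _ => rfl⟩, fun x => x.1,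
      fun _ => rfl, fun _ => rfl⟩, fun _ _ => rfl⟩

end Pool.Agent.H84BD
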