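import Pool.Agent.Helper84.BD.Asy

/-!
Subgroups of finite index prime to the characteristic: the dimension of an indecomposable module
is bounded by the index times the dimension of a summand of its restriction.
-/

universe u v w x

open scoped TensorProduct

namespace Pool.Agent.H84BD

open Pool.Agent.H80Green

variable {k : Type u} [Field k] {G : Type v} [Group G]

section shr

variable {A : Type w} [AddCommGroup A] [Module k A] [Module.Finite k A]
  {B : Type x} [AddCommGroup B] [Module k B] [Module.Finite k B]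

/-- coordinates of a finite dimensional space -/
noncomputable def ce (k : Type u) [Field k] (A : Type w) [AddCommGroup A] [Module k A]
    [Module.Finite k A] : A ≃ₗ[k] (Fin (Module.finrank k A) → k) :=
  (Module.finBasis k A).equivFun

/-- the module given by a finite dimensional representation in any universe -/
noncomputable def shr (ρ : Representation k G A) : Md k G where
  carrier := Fin (Module.finrank k A) → k
  rep :=
    { toFun := fun g => (ce k A).toLinearMap ∘ₗ ρ g ∘ₗ (ce k A).symm.toLinearMap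
      map_one' := by
        apply LinearMap.ext
        intro f
        show ce k A (ρ 1 ((ce k A).symm f)) = f
        rw [map_one]
        exact (ce k A).apply_symm_apply f
      map_mul' := fun g h => by
        apply LinearMap.ext
        intro f
        show ce k A (ρ (g * h) ((ce k A).symm f)) =
          ce k A (ρ g ((ce k A).symm (ce k A (ρ h ((ce k A).symm f)))))
        rw [map_mul, LinearEquiv.symm_apply_apply]
        rfl }

lemma shr_rep (ρ : Representation k G A) (g : G) (f : Fin (Module.finrank k A) → k) :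
    (shr ρ).rep g f = ce k A (ρ g ((ce k A).symm f)) := rfl

lemma shr_dim (ρ : Representation k G A) : (shr ρ).dim = Module.finrank k A :=
  Module.finrank_fin_fun k

lemma ret_shr {X : Md k G} (ρ : Representation k G A) (i : X.carrier →ₗ[k] A)
    (r : A →ₗ[k] X.carrier) (hi : ∀ g x, i (X.rep g x) = ρ g (i x))
    (hr : ∀ g a, r (ρ g a) = X.rep g (r a)) (h : ∀ x, r (i x) = x) : Ret X (shr ρ) := by
  refine ⟨(ce k A).toLinearMap ∘ₗ i, r ∘ₗ (ce k A).symm.toLinearMap, fun g x => ?_,
    fun g y => ?_, fun x => ?_⟩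
  · show ce k A (i (X.rep g x)) = ce k A (ρ g ((ce k A).symm (ce k A (i x))))
    rw [LinearEquiv.symm_apply_apply, hi]
  · show r ((ce k A).symm (ce k A (ρ g ((ce k A).symm y)))) = X.rep g (r ((ce k A).symm y))
    rw [LinearEquiv.symm_apply_apply, hr]
  · show r ((ce k A).symm (ce k A (i x))) = x
    rw [LinearEquiv.symm_apply_apply, h]

lemma shr_ret {Y : Md k G} (ρ : Representation k G A) (i : A →ₗ[k] Y.carrier)
    (r : Y.carrier →ₗ[k] A) (hi : ∀ g a, i (ρ g a) = Y.rep g (i a))
    (hr : ∀ g y, r (Y.rep g y) = ρ g (r y)) (h : ∀ a, r (i a) = a) : Ret (shr ρ) Y := by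
  refine ⟨i ∘ₗ (ce k A).symm.toLinearMap, (ce k A).toLinearMap ∘ₗ r, fun g x => ?_,
    fun g y => ?_, fun x => ?_⟩
  · show i ((ce k A).symm (ce k A (ρ g ((ce k A).symm x)))) = Y.rep g (i ((ce k A).symm x))
    rw [LinearEquiv.symm_apply_apply, hi]
  · show ce k A (r (Y.rep g y)) = ce k A (ρ g ((ce k A).symm (ce k A (r y))))
    rw [LinearEquiv.symm_apply_apply, hr]
  · show ce k A (r (i ((ce k A).symm x))) = x
    rw [h]
    exact (ce k A).apply_symm_apply x

lemma shr_map (ρ : Representation k G A) (σ : Representation k G B) (i : A →ₗ[k] B)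
    (r : B →ₗ[k] A) (hi : ∀ g a, i (ρ g a) = σ g (i a))
    (hr : ∀ g y, r (σ g y) = ρ g (r y)) (h : ∀ a, r (i a) = a) : Ret (shr ρ) (shr σ) := by
  refine shr_ret ρ ((ce k B).toLinearMap ∘ₗ i) (r ∘ₗ (ce k B).symm.toLinearMap) (fun g a => ?_)
    (fun g y => ?_) fun a => ?_
  · show ce k B (i (ρ g a)) = ce k B (σ g ((ce k B).symm (ce k B (i a))))
    rw [LinearEquiv.symm_apply_apply, hi]
  · show r ((ce k B).symm (ce k B (σ g ((ce k B).symm y)))) = ρ g (r ((ce k B).symm y))
    rw [LinearEquiv.symm_apply_apply, hr]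
  · show r ((ce k B).symm (ce k B (i a))) = a
    rw [LinearEquiv.symm_apply_apply, h]

end shr

section co

variable (N : Subgroup G)

/-- the space of the coinduced module -/
def coV (U : Md k N) : Submodule k (G → U.carrier) where
  carrier := {f | ∀ (h : N) (g : G), f (h * g) = U.rep h (f g)}
  add_mem' := by
    intro f f' hf hf' h g
    rw [Pi.add_apply, Pi.add_apply, hf, hf', map_add]
  zero_mem' := by
    intro h g
    rw [Pi.zero_apply, Pi.zero_apply, map_zero]
  smul_mem' := by
    intro c f hf h g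
    rw [Pi.smul_apply, Pi.smul_apply, hf, map_smul]

/-- the coinduced representation -/
def coR (U : Md k N) : Representation k G (coV N U) where
  toFun g :=
    { toFun := fun f => ⟨fun y => f.1 (y * g), fun h y => by
        show f.1 (h * y * g) = _
        rw [mul_assoc]
        exact f.2 h (y * g)⟩
      map_add' := fun _ _ => rfl
      map_smul' := fun _ _ => rfl }
  map_one' := by
    apply LinearMap.ext
    intro f
    apply Subtype.ext
    funext y
    show f.1 (y * 1) = f.1 y
    rw [mul_one]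
  map_mul' g h := by
    apply LinearMap.ext
    intro f
    apply Subtype.ext
    funext y
    show f.1 (y * (g * h)) = f.1 (y * g * h)
    rw [mul_assoc]

lemma coR_apply (U : Md k N) (g : G) (f : coV N U) (y : G) : (coR N U g f).1 y = f.1 (y * g) := rfl

/-- values on representatives -/
noncomputable def evR (U : Md k N) : coV N U →ₗ[k] (G ⧸ N → U.carrier) where
  toFun f c := f.1 (c.out)⁻¹
  map_add' _ _ := rfl
  map_smul' _ _ := rfl

lemma evR_inj (U : Md k N) : Function.Injective (evR N U) := by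
  rw [injective_iff_map_eq_zero]
  intro f hf
  apply Subtype.ext
  funext y
  obtain ⟨h, hh⟩ := QuotientGroup.mk_out_eq_mul N y⁻¹
  have h1 : f.1 ((QuotientGroup.mk (s := N) y⁻¹).out)⁻¹ = 0 := congrFun hf _
  rw [hh, mul_inv_rev, inv_inv] at h1
  have h2 := f.2 h⁻¹ y
  rw [Subgroup.coe_inv, h1] at h2
  have h3 : U.rep h (U.rep h⁻¹ (f.1 y)) = f.1 y := by
    rw [← Module.End.mul_apply, ← map_mul, mul_inv_cancel, map_one]
    rfl
  rw [← h2, map_zero] at h3
  exact h3.symm

variable [N.FiniteIndex]

instance (U : Md k N) : Module.Finite k (coV N U) :=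
  Module.Finite.of_injective (evR N U) (evR_inj N U)

lemma finrank_coV (U : Md k N) : Module.finrank k (coV N U) ≤ N.index * U.dim := by
  have : Fintype (G ⧸ N) := Fintype.ofFinite _
  refine (LinearMap.finrank_le_finrank_of_injective (evR_inj N U)).trans (le_of_eq ?_)
  rw [Module.finrank_pi_fintype]
  simp only [Finset.sum_const, Finset.card_univ, smul_eq_mul]
  rw [← Nat.card_eq_fintype_card]
  rfl

/-- the coinduced module -/
noncomputable def co (U : Md k N) : Md k G := shr (coR N U)

lemma co_dim (U : Md k N) : (co N U).dim ≤ N.index * U.dim := by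
  rw [co, shr_dim]
  exact finrank_coV N U

lemma co_ret {U U' : Md k N} (h : Ret U U') : Ret (co N U) (co N U') := by
  obtain ⟨i, r, hi, hr, h⟩ := h
  let i' : coV N U →ₗ[k] coV N U' :=
    { toFun := fun f => ⟨fun y => i (f.1 y), fun h y => by
        show i (f.1 (h * y)) = U'.rep h (i (f.1 y))
        rw [f.2, hi]⟩
      map_add' := fun f f' => Subtype.ext (funext fun y => map_add i _ _)
      map_smul' := fun c f => Subtype.ext (funext fun y => map_smul i _ _) }
  let r' : coV N U' →ₗ[k] coV N U :=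
    { toFun := fun f => ⟨fun y => r (f.1 y), fun h y => by
        show r (f.1 (h * y)) = U.rep h (r (f.1 y))
        rw [f.2, hr]⟩
      map_add' := fun f f' => Subtype.ext (funext fun y => map_add r _ _)
      map_smul' := fun c f => Subtype.ext (funext fun y => map_smul r _ _) }
  exact shr_map _ _ i' r' (fun g a => rfl) (fun g y => rfl)
    fun a => Subtype.ext (funext fun y => h (a.1 y))

lemma co_prod (U U' : Md k N) : Ret (co N (U.prod U')) ((co N U).prod (co N U')) := by
  let i1 : coV N (U.prod U') →ₗ[k] coV N U :=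
    { toFun := fun f => ⟨fun y => (f.1 y).1, fun h y => by
        show (f.1 (h * y)).1 = U.rep h (f.1 y).1
        rw [f.2]
        rfl⟩
      map_add' := fun f f' => rfl
      map_smul' := fun c f => rfl }
  let i2 : coV N (U.prod U') →ₗ[k] coV N U' :=
    { toFun := fun f => ⟨fun y => (f.1 y).2, fun h y => by
        show (f.1 (h * y)).2 = U'.rep h (f.1 y).2
        rw [f.2]
        rfl⟩
      map_add' := fun f f' => rfl
      map_smul' := fun c f => rfl }
  let r : coV N U × coV N U' →ₗ[k] coV N (U.prod U') :=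
    { toFun := fun f => ⟨fun y => (f.1.1 y, f.2.1 y), fun h y => by
        show (f.1.1 (h * y), f.2.1 (h * y)) = (U.rep h (f.1.1 y), U'.rep h (f.2.1 y))
        rw [f.1.2, f.2.2]⟩
      map_add' := fun f f' => rfl
      map_smul' := fun c f => rfl }
  let e := ce k (coV N U)
  let e' := ce k (coV N U')
  refine shr_ret (Y := (co N U).prod (co N U')) _
    ((e.toLinearMap ∘ₗ i1).prod (e'.toLinearMap ∘ₗ i2))
    (r ∘ₗ (e.symm.toLinearMap.prodMap e'.symm.toLinearMap)) (fun g a => ?_) (fun g y => ?_)
    fun a => ?_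
  · apply Prod.ext
    · show e (i1 (coR N (U.prod U') g a)) = e (coR N U g (e.symm (e (i1 a))))
      rw [LinearEquiv.symm_apply_apply]
      rfl
    · show e' (i2 (coR N (U.prod U') g a)) = e' (coR N U' g (e'.symm (e' (i2 a))))
      rw [LinearEquiv.symm_apply_apply]
      rfl
  · show r (e.symm (e (coR N U g (e.symm y.1))), e'.symm (e' (coR N U' g (e'.symm y.2)))) =
      coR N (U.prod U') g (r (e.symm y.1, e'.symm y.2))
    rw [LinearEquiv.symm_apply_apply, LinearEquiv.symm_apply_apply]
    rfl
  · show r (e.symm (e (i1 a)), e'.symm (e' (i2 a))) = a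
    rw [LinearEquiv.symm_apply_apply, LinearEquiv.symm_apply_apply]
    rfl

lemma co_sum : ∀ l : List (Md k N), Ret (co N (Md.sum l)) (Md.sum (l.map (co N)))
  | [] => by
    refine ret_zero _ (Nat.le_zero.1 ?_)
    refine (co_dim N _).trans ?_
    show N.index * (Md.zero k N).dim ≤ 0
    rw [Md.dim_zero, mul_zero]
  | U :: l => (co_prod N U (Md.sum l)).trans ((Ret.refl _).prod (co_sum l))

lemma tr_out (W : Md k G) (f : coV N (res N.subtype W)) (y : G) :
    W.rep (QuotientGroup.mk (s := N) y).out (f.1 ((QuotientGroup.mk (s := N) y).out)⁻¹) =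
      W.rep y (f.1 y⁻¹) := by
  obtain ⟨h, hh⟩ := QuotientGroup.mk_out_eq_mul N y
  rw [hh, mul_inv_rev]
  have h2 := f.2 h⁻¹ y⁻¹
  rw [Subgroup.coe_inv] at h2
  rw [h2]
  show W.rep (y * h) (W.rep ((h⁻¹ : N) : G) (f.1 y⁻¹)) = _
  rw [← Module.End.mul_apply, ← map_mul, Subgroup.coe_inv, mul_inv_cancel_right]

lemma ret_co (hN : (N.index : k) ≠ 0) (W : Md k G) : Ret W (co N (res N.subtype W)) := by
  have : Fintype (G ⧸ N) := Fintype.ofFinite _
  let i : W.carrier →ₗ[k] coV N (res N.subtype W) :=
    { toFun := fun w => ⟨fun y => W.rep y w, fun h y => by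
        show W.rep (h * y) w = W.rep h (W.rep y w)
        rw [map_mul]
        rfl⟩
      map_add' := fun w w' => Subtype.ext (funext fun y => map_add _ _ _)
      map_smul' := fun c w => Subtype.ext (funext fun y => map_smul _ _ _) }
  let t : coV N (res N.subtype W) →ₗ[k] W.carrier :=
    { toFun := fun f => ∑ c : G ⧸ N, W.rep c.out (f.1 (c.out)⁻¹)
      map_add' := fun f f' => by
        rw [← Finset.sum_add_distrib]
        refine Finset.sum_congr rfl fun c _ => ?_
        rw [← map_add]
        rfl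
      map_smul' := fun a f => by
        rw [Finset.smul_sum]
        refine Finset.sum_congr rfl fun c _ => ?_
        rw [← map_smul]
        rfl }
  have ht : ∀ f, t f = ∑ c : G ⧸ N, W.rep c.out (f.1 (c.out)⁻¹) := fun _ => rfl
  refine ret_shr _ i ((N.index : k)⁻¹ • t) (fun g w => ?_) (fun g f => ?_) fun w => ?_
  · apply Subtype.ext
    funext y
    show W.rep y (W.rep g w) = W.rep (y * g) w
    rw [map_mul]
    rfl
  · rw [LinearMap.smul_apply, LinearMap.smul_apply, map_smul]
    congr 1
    rw [ht, ht, map_sum, ← Equiv.sum_comp (MulAction.toPerm (g⁻¹ : G))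
      (fun c : G ⧸ N => W.rep g (W.rep c.out (f.1 (c.out)⁻¹)))]
    refine Finset.sum_congr rfl fun c _ => ?_
    have h1 : (MulAction.toPerm (g⁻¹ : G)) c = QuotientGroup.mk (s := N) (g⁻¹ * c.out) := by
      rw [MulAction.toPerm_apply]
      conv_lhs => rw [← QuotientGroup.out_eq' c]
      rfl
    rw [h1, tr_out, ← Module.End.mul_apply, ← map_mul, mul_inv_cancel_left, mul_inv_rev, inv_inv]
    rfl
  · rw [LinearMap.smul_apply, ht]
    have h1 : ∀ c : G ⧸ N, W.rep c.out ((i w).1 (c.out)⁻¹) = w := by
      intro c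
      show W.rep c.out (W.rep (c.out)⁻¹ w) = w
      rw [← Module.End.mul_apply, ← map_mul, mul_inv_cancel, map_one]
      rfl
    simp only [h1, Finset.sum_const, Finset.card_univ]
    rw [← Nat.card_eq_fintype_card, ← Nat.cast_smul_eq_nsmul k, smul_smul]
    have h2 : (N.index : k)⁻¹ * (Nat.card (G ⧸ N) : k) = 1 := inv_mul_cancel₀ hN
    rw [h2, one_smul]

/-- the bound of the dimension of an indecomposable module -/
theorem dim_indec (hN : (N.index : k) ≠ 0) (W : Md k G) (hW : W.Indec) (l : List (Md k N))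
    (h : Ret (res N.subtype W) (Md.sum l)) : ∃ U ∈ l, W.dim ≤ N.index * U.dim := by
  have h1 : Ret W (Md.sum (l.map (co N))) :=
    (ret_co N hN W).trans ((co_ret N h).trans (co_sum N l))
  obtain ⟨W', hW', h2⟩ := ret_indec (MonoidHom.id G) Function.surjective_id W hW _ h1
  obtain ⟨U, hU, rfl⟩ := List.mem_map.1 hW'
  exact ⟨U, hU, (Ret.dim_le h2).trans (co_dim N U)⟩

end co

/-- decomposition into indecomposable modules -/
theorem indec_decomp : ∀ (n : ℕ) (X : Md k G), X.dim = n →
    ∃ l : List (Md k G), Md.Iso X (Md.sum l) ∧ ∀ W ∈ l, W.Indec := by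
  intro n
  induction n using Nat.strong_induction_on with
  | _ n ih =>
    intro X hn
    rcases Nat.eq_zero_or_pos X.dim with h0 | h0
    · have hs : Subsingleton X.carrier := Module.finrank_zero_iff.1 h0
      exact ⟨[], ⟨⟨⟨⟨fun _ => PUnit.unit, fun _ _ => rfl⟩, fun _ _ => rfl⟩, fun _ => 0,
        fun _ => hs.elim _ _, fun _ => rfl⟩, fun _ _ => rfl⟩, fun W hW => by simp at hW⟩
    · by_cases hX : X.Indec
      · exact ⟨[X], iso_cons_zero X, fun W hW => by rw [List.mem_singleton] at hW; rwa [hW]⟩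
      · have : ∃ Y Z : Md k G, Md.Iso X (Y.prod Z) ∧ Y.dim ≠ 0 ∧ Z.dim ≠ 0 := by
          by_contra hcon
          push Not at hcon
          exact hX ⟨h0, fun Y Z hYZ => by
            by_cases hY : Y.dim = 0
            · exact Or.inl hY
            · exact Or.inr (hcon Y Z hYZ hY)⟩
        obtain ⟨Y, Z, hYZ, hY, hZ⟩ := this
        have hd := hYZ.dim_eq
        rw [Md.dim_prod] at hd
        obtain ⟨l1, hl1, h1⟩ := ih Y.dim (by omega) Y rfl
        obtain ⟨l2, hl2, h2⟩ := ih Z.dim (by omega) Z rfl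
        refine ⟨l1 ++ l2, hYZ.trans ((iso_prod_congr hl1 hl2).trans
          (iso_sum_append l1 l2).symm), fun W hW => ?_⟩
        rcases List.mem_append.1 hW with h | h
        · exact h1 W h
        · exact h2 W h

lemma ret_of_mem_sum {W : Md k G} : ∀ l : List (Md k G), W ∈ l → Ret W (Md.sum l)
  | [], h => by simp at h
  | V :: l, h => by
    rcases List.mem_cons.1 h with h | h
    · rw [h]
      exact Ret.prod_left V _
    · exact (ret_of_mem_sum l h).trans (Ret.prod_right V _)

lemma res_tpow {H : Type w} [Group H] (π : H →* G) (X : Md k G) (m : ℕ) :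
    Md.Iso (res π (X.tpow m)) ((res π X).tpow m) := by
  induction m with
  | zero => exact ⟨LinearEquiv.refl k _, fun _ _ => rfl⟩
  | succ m ih =>
    have h : Md.Iso (res π (X.tpow (m + 1))) ((res π (X.tpow m)).tensor (res π X)) :=
      ⟨LinearEquiv.refl k _, fun _ _ => rfl⟩
    exact h.trans (iso_tensor_congr ih (iso_refl _))

/-- Subexponential decomposition of the tensor powers. -/
theorem subexp (p : ℕ) [Fact p.Prime] [CharP k p] (N : Subgroup G) [N.FiniteIndex]
    (hN : (N.index : k) ≠ 0) (X : Md k G) (hX : Gen (res N.subtype X)) (ε : ℝ) (hε : 0 < ε) :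
    ∃ m : ℕ, 0 < m ∧ ∃ l : List (Md k G), Md.Iso (X.tpow m) (Md.sum l) ∧
      ∀ W ∈ l, (W.dim : ℝ) ≤ Real.exp (ε * m) := by
  obtain ⟨N0, hN0⟩ := exists_nat_ge ((N.index : ℝ) / (ε / 2))
  obtain ⟨m, hm0, hm, S, t, hS, hA, ht⟩ := (hX.sm p (half_pos hε)).mult N0
  obtain ⟨l, hl, hind⟩ := indec_decomp _ (X.tpow m) rfl
  refine ⟨m, hm, l, hl, fun W hW => ?_⟩
  have h1 : Add (Cl S t) (res N.subtype W) := by
    refine Add.of_ret (ret_res N.subtype ((ret_of_mem_sum l hW).trans (Ret.of_iso' hl))) ?_
    exact Add.of_iso (res_tpow N.subtype X m) hA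
  obtain ⟨l', hl', h2⟩ := h1
  obtain ⟨U, hU, h3⟩ := dim_indec N hN W (hind W hW) l' h2
  have h4 : U.dim ≤ 2 ^ t := (hl' U hU).dim_le hS
  have h5 : (W.dim : ℝ) ≤ N.index * 2 ^ t := by
    exact_mod_cast h3.trans (Nat.mul_le_mul_left _ h4)
  have h6 : (N.index : ℝ) ≤ Real.exp (ε / 2 * m) := by
    have h7 : (N.index : ℝ) ≤ ε / 2 * m := by
      rw [div_le_iff₀ (half_pos hε)] at hN0
      have h8 : (N0 : ℝ) ≤ m := by exact_mod_cast hm0
      calc (N.index : ℝ) ≤ N0 * (ε / 2) := hN0
        _ ≤ m * (ε / 2) := mul_le_mul_of_nonneg_right h8 (half_pos hε).le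
        _ = ε / 2 * m := mul_comm _ _
    have h9 := Real.add_one_le_exp (ε / 2 * m)
    linarith
  have h10 : (2 : ℝ) ^ t ≤ Real.exp (ε / 2 * m) := by
    have h11 : (2 : ℝ) ≤ Real.exp 1 := by
      have := Real.add_one_le_exp (1 : ℝ)
      linarith
    calc (2 : ℝ) ^ t ≤ Real.exp 1 ^ t := pow_le_pow_left₀ (by norm_num) h11 t
      _ = Real.exp t := by rw [← Real.exp_nat_mul, mul_one]
      _ ≤ Real.exp (ε / 2 * m) := Real.exp_le_exp.2 ht
  calc (W.dim : ℝ) ≤ N.index * 2 ^ t := h5
    _ ≤ Real.exp (ε / 2 * m) * Real.exp (ε / 2 * m) :=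
        mul_le_mul h6 h10 (by positivity) (Real.exp_pos _).le
    _ = Real.exp (ε * m) := by rw [← Real.exp_add]; congr 1; ring

end Pool.Agent.H84BD
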