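import Pool.Agent.Helper84.BD.Ret

/-!
The exchange property: a retract of a direct sum is a direct sum of retracts of the summands.
The decomposition is over `G`, the retraction over a group `H` mapping onto `G`.
-/

universe u v w

open scoped TensorProduct

namespace Pool.Agent.H84BD

open Pool.Agent.H80Green

variable {k : Type u} [Field k] {G : Type v} [Group G] {H : Type w} [Group H]

/-- Fitting's lemma for an indecomposable module. -/
lemma fitting (X : Md k G) (hX : X.Indec) (f : Module.End k X.carrier)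
    (hf : ∀ (g : G) (x : X.carrier), f (X.rep g x) = X.rep g (f x)) :
    IsNilpotent f ∨ Function.Bijective f := by
  have hpow : ∀ (n : ℕ) (g : G) (x : X.carrier), (f ^ n) (X.rep g x) = X.rep g ((f ^ n) x) := by
    intro n
    induction n with
    | zero => intro g x; rfl
    | succ n ih =>
      intro g x
      rw [pow_succ, Module.End.mul_apply, Module.End.mul_apply, hf, ih]
  obtain ⟨n, hn, hn1⟩ := ((LinearMap.eventually_isCompl_ker_pow_range_pow f).and
    (Filter.eventually_ge_atTop 1)).exists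
  have hK : ∀ g, LinearMap.ker (f ^ n) ≤ (LinearMap.ker (f ^ n)).comap (X.rep g) := by
    intro g x hx
    rw [Submodule.mem_comap, LinearMap.mem_ker, hpow, LinearMap.mem_ker.1 hx, map_zero]
  have hR : ∀ g, LinearMap.range (f ^ n) ≤ (LinearMap.range (f ^ n)).comap (X.rep g) := by
    rintro g x ⟨y, rfl⟩
    exact ⟨X.rep g y, hpow n g y⟩
  have hiso : Md.Iso X ((X.sub _ hK).prod (X.sub _ hR)) := by
    refine Md.Iso.symm ⟨Submodule.prodEquivOfIsCompl _ _ hn, fun g x => ?_⟩
    rcases x with ⟨x, y⟩
    rw [Submodule.coe_prodEquivOfIsCompl', Submodule.coe_prodEquivOfIsCompl']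
    exact (map_add (X.rep g) _ _).symm
  rcases hX.2 _ _ hiso with h | h
  · right
    have hs : Subsingleton (LinearMap.ker (f ^ n)) := Module.finrank_zero_iff.1 h
    have hinj : Function.Injective (f ^ n) := by
      rw [← LinearMap.ker_eq_bot]
      exact Submodule.subsingleton_iff_eq_bot.1 hs
    have hfi : Function.Injective f := by
      intro x y hxy
      apply hinj
      obtain ⟨m, rfl⟩ := Nat.exists_eq_succ_of_ne_zero (Nat.one_le_iff_ne_zero.1 hn1)
      rw [pow_succ, Module.End.mul_apply, Module.End.mul_apply, hxy]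
    exact ⟨hfi, LinearMap.injective_iff_surjective.1 hfi⟩
  · left
    have hs : Subsingleton (LinearMap.range (f ^ n)) := Module.finrank_zero_iff.1 h
    refine ⟨n, LinearMap.ext fun x => ?_⟩
    have h1 : (⟨(f ^ n) x, LinearMap.mem_range_self _ _⟩ : LinearMap.range (f ^ n)) = 0 :=
      hs.elim _ _
    exact congrArg Subtype.val h1

/-- A retract with an equivariant bijection in place of the identity. -/
lemma ret_of_bij {X Y : Md k G} (i : X.carrier →ₗ[k] Y.carrier) (r : Y.carrier →ₗ[k] X.carrier)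
    (hi : ∀ (g : G) (x : X.carrier), i (X.rep g x) = Y.rep g (i x))
    (hr : ∀ (g : G) (y : Y.carrier), r (Y.rep g y) = X.rep g (r y))
    (hb : Function.Bijective (r ∘ₗ i)) : Ret X Y := by
  let e := LinearEquiv.ofBijective (r ∘ₗ i) hb
  refine ⟨i, e.symm.toLinearMap ∘ₗ r, hi, fun g y => ?_, fun x => ?_⟩
  · show e.symm (r (Y.rep g y)) = X.rep g (e.symm (r y))
    rw [LinearEquiv.symm_apply_eq]
    show _ = r (i (X.rep g (e.symm (r y))))
    rw [hi, hr, hr]
    congr 1
    exact (e.apply_symm_apply (r y)).symm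
  · exact e.symm_apply_apply x

/-- An indecomposable retract of a direct sum is a retract of a summand. -/
lemma ret_indec (π : H →* G) (hπ : Function.Surjective π) (X : Md k G) (hX : X.Indec) :
    ∀ l : List (Md k H), Ret (res π X) (Md.sum l) → ∃ W ∈ l, Ret (res π X) W
  | [], h => by
    exfalso
    obtain ⟨i, r, -, -, h⟩ := h
    have hs : Subsingleton X.carrier :=
      ⟨fun x y => by rw [← h x, ← h y]; congr 1⟩
    have h0 : X.dim = 0 := Module.finrank_zero_iff.2 hs
    have := hX.1
    omega
  | W :: l, h => by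
    obtain ⟨i, r, hi, hr, h⟩ := h
    let i1 : X.carrier →ₗ[k] W.carrier := LinearMap.fst k _ _ ∘ₗ i
    let i2 : X.carrier →ₗ[k] (Md.sum l).carrier := LinearMap.snd k _ _ ∘ₗ i
    let r1 : W.carrier →ₗ[k] X.carrier := r ∘ₗ LinearMap.inl k _ _
    let r2 : (Md.sum l).carrier →ₗ[k] X.carrier := r ∘ₗ LinearMap.inr k _ _
    have hi1 : ∀ (g : H) (x : X.carrier), i1 (X.rep (π g) x) = W.rep g (i1 x) :=
      fun g x => congrArg Prod.fst (hi g x)
    have hi2 : ∀ (g : H) (x : X.carrier), i2 (X.rep (π g) x) = (Md.sum l).rep g (i2 x) :=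
      fun g x => congrArg Prod.snd (hi g x)
    have hr1 : ∀ (g : H) (y : W.carrier), r1 (W.rep g y) = X.rep (π g) (r1 y) := by
      intro g y
      have h1 := hr g (y, 0)
      have h2 : (Md.sum (W :: l)).rep g (y, (0 : (Md.sum l).carrier)) = (W.rep g y, 0) := by
        show (W.rep g y, (Md.sum l).rep g 0) = _
        rw [map_zero]
      rw [h2] at h1
      exact h1
    have hr2 : ∀ (g : H) (y : (Md.sum l).carrier),
        r2 ((Md.sum l).rep g y) = X.rep (π g) (r2 y) := by
      intro g y
      have h1 := hr g (0, y)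
      have h2 : (Md.sum (W :: l)).rep g ((0 : W.carrier), y) = (0, (Md.sum l).rep g y) := by
        show (W.rep g 0, (Md.sum l).rep g y) = _
        rw [map_zero]
      rw [h2] at h1
      exact h1
    have hsum : ∀ x, r1 (i1 x) + r2 (i2 x) = x := by
      intro x
      have h1 : r (i x) = r ((i x).1, 0) + r (0, (i x).2) := by
        rw [← map_add]
        congr 1
        exact Prod.ext (add_zero _).symm (zero_add _).symm
      rw [h] at h1
      exact h1.symm
    let f : Module.End k X.carrier := r1 ∘ₗ i1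
    have hf : ∀ (g : G) (x : X.carrier), f (X.rep g x) = X.rep g (f x) := by
      intro g x
      obtain ⟨g', rfl⟩ := hπ g
      show r1 (i1 _) = _
      rw [hi1, hr1]
      rfl
    rcases fitting X hX f hf with hn | hb
    · have hu : IsUnit (1 - f) := hn.isUnit_one_sub
      have h2 : (r2 ∘ₗ i2 : Module.End k X.carrier) = 1 - f := by
        apply LinearMap.ext
        intro x
        show r2 (i2 x) = x - r1 (i1 x)
        rw [eq_sub_iff_add_eq, add_comm]
        exact hsum x
      have hb : Function.Bijective (r2 ∘ₗ i2) := by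
        rw [h2]
        exact (Module.End.isUnit_iff _).1 hu
      obtain ⟨W', hW', h3⟩ := ret_indec π hπ X hX l
        (ret_of_bij (X := res π X) (Y := Md.sum l) i2 r2 hi2 hr2 hb)
      exact ⟨W', List.mem_cons_of_mem _ hW', h3⟩
    · exact ⟨W, List.mem_cons_self, ret_of_bij (X := res π X) (Y := W) i1 r1 hi1 hr1 hb⟩

lemma iso_cons_zero (X : Md k G) : Md.Iso X (Md.sum [X]) :=
  ⟨⟨⟨⟨fun x => (x, PUnit.unit), fun _ _ => rfl⟩, fun _ _ => rfl⟩, fun x => x.1,
      fun _ => rfl, fun _ => rfl⟩, fun _ _ => rfl⟩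

lemma iso_prod_congr {X Y X' Y' : Md k G} (h : Md.Iso X X') (h' : Md.Iso Y Y') :
    Md.Iso (X.prod Y) (X'.prod Y') := by
  obtain ⟨e, he⟩ := h
  obtain ⟨e', he'⟩ := h'
  exact ⟨LinearEquiv.prodCongr e e', fun g x => Prod.ext (he g x.1) (he' g x.2)⟩

lemma ret_res (π : H →* G) {X Y : Md k G} (h : Ret X Y) : Ret (res π X) (res π Y) := by
  obtain ⟨i, r, hi, hr, h⟩ := h
  exact ⟨i, r, fun g x => hi (π g) x, fun g x => hr (π g) x, h⟩

/-- The exchange property. -/
theorem exchange (π : H →* G) (hπ : Function.Surjective π) (l : List (Md k H)) :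
    ∀ (n : ℕ) (X : Md k G), X.dim = n → Ret (res π X) (Md.sum l) →
    ∃ l' : List (Md k G), Md.Iso X (Md.sum l') ∧ ∀ W' ∈ l', ∃ W ∈ l, Ret (res π W') W := by
  intro n
  induction n using Nat.strong_induction_on with
  | _ n ih =>
    intro X hn h
    rcases Nat.eq_zero_or_pos X.dim with h0 | h0
    · have hs : Subsingleton X.carrier := Module.finrank_zero_iff.1 h0
      refine ⟨[], ⟨⟨⟨⟨fun _ => PUnit.unit, fun _ _ => rfl⟩, fun _ _ => rfl⟩, fun _ => 0,
        fun _ => hs.elim _ _, fun _ => rfl⟩, fun _ _ => rfl⟩, fun W hW => by simp at hW⟩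
    · by_cases hX : X.Indec
      · obtain ⟨W, hW, h1⟩ := ret_indec π hπ X hX l h
        refine ⟨[X], iso_cons_zero X, fun W' hW' => ?_⟩
        rw [List.mem_singleton] at hW'
        exact ⟨W, hW, by rw [hW']; exact h1⟩
      · have : ∃ Y Z : Md k G, Md.Iso X (Y.prod Z) ∧ Y.dim ≠ 0 ∧ Z.dim ≠ 0 := by
          by_contra hcon
          push Not at hcon
          exact hX ⟨h0, fun Y Z hYZ => by
            by_cases hY : Y.dim = 0
            · exact Or.inl hY
            · exact Or.inr (hcon Y Z hYZ hY)⟩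
        obtain ⟨Y, Z, hYZ, hY, hZ⟩ := this
        have hd := hYZ.dim_eq
        rw [Md.dim_prod] at hd
        have hYX : Ret Y X := (Ret.prod_left Y Z).trans (Ret.of_iso' hYZ)
        have hZX : Ret Z X := (Ret.prod_right Y Z).trans (Ret.of_iso' hYZ)
        obtain ⟨l1, hl1, h1⟩ := ih Y.dim (by omega) Y rfl ((ret_res π hYX).trans h)
        obtain ⟨l2, hl2, h2⟩ := ih Z.dim (by omega) Z rfl ((ret_res π hZX).trans h)
        refine ⟨l1 ++ l2, hYZ.trans ((iso_prod_congr hl1 hl2).trans
          (iso_sum_append l1 l2).symm), fun W' hW' => ?_⟩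
        rcases List.mem_append.1 hW' with h | h
        · exact h1 W' h
        · exact h2 W' h

end Pool.Agent.H84BD
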