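import Pool.Agent.Helper84.BD.Poly

/-!
The modules of binary forms of a two dimensional representation, and the equivariant maps between
their tensor products.
-/

universe u v w

open scoped TensorProduct

namespace Pool.Agent.H84BD

open Pool.Agent.H80Green MvPolynomial

variable {k : Type u} [Field k] {G : Type v} [Group G]

/-- equivariant linear maps -/
def Eqv (X Y : Md k G) (f : X.carrier →ₗ[k] Y.carrier) : Prop :=
  ∀ (g : G) (x : X.carrier), f (X.rep g x) = Y.rep g (f x)

lemma Eqv.comp {X Y Z : Md k G} {f : X.carrier →ₗ[k] Y.carrier} {f' : Y.carrier →ₗ[k] Z.carrier}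
    (h' : Eqv Y Z f') (h : Eqv X Y f) : Eqv X Z (f' ∘ₗ f) := fun g x => by
  rw [LinearMap.comp_apply, LinearMap.comp_apply, h, h']

lemma Eqv.tensor {X Y X' Y' : Md k G} {f : X.carrier →ₗ[k] X'.carrier}
    {f' : Y.carrier →ₗ[k] Y'.carrier} (h : Eqv X X' f) (h' : Eqv Y Y' f') :
    Eqv (X.tensor Y) (X'.tensor Y') (TensorProduct.map f f') :=
  equiv_tensor f f' h h'

lemma Eqv.lift {X Y Z : Md k G} (f : X.carrier →ₗ[k] Y.carrier →ₗ[k] Z.carrier)
    (h : ∀ (g : G) (x : X.carrier) (y : Y.carrier), f (X.rep g x) (Y.rep g y) = Z.rep g (f x y)) :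
    Eqv (X.tensor Y) Z (TensorProduct.lift f) := by
  intro g z
  induction z using TensorProduct.induction_on with
  | zero => simp only [map_zero]
  | tmul x y => exact h g x y
  | add a b ha hb => simp only [map_add, ha, hb]

/-- the action on forms of degree `n` -/
noncomputable def actH (M : Matrix (Fin 2) (Fin 2) k) (n : ℕ) : Hm k n →ₗ[k] Hm k n :=
  (act M).toLinearMap.restrict fun _ hf => act_homog M hf

lemma actH_coe (M : Matrix (Fin 2) (Fin 2) k) (n : ℕ) (f : Hm k n) :
    (actH M n f : MvPolynomial (Fin 2) k) = act M f.1 := rfl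

/-- The module of binary forms of degree `n`, twisted by the `c`-th power of the determinant. -/
noncomputable abbrev Sy (ρ : G →* Matrix (Fin 2) (Fin 2) k) (n c : ℕ) : Md k G where
  carrier := Hm k n
  rep :=
    { toFun := fun g => (ρ g).det ^ c • actH (ρ g) n
      map_one' := by
        apply LinearMap.ext
        intro f
        apply Subtype.ext
        rw [map_one, Matrix.det_one, one_pow, one_smul, actH_coe, act_one]
        rfl
      map_mul' := fun g h => by
        apply LinearMap.ext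
        intro f
        apply Subtype.ext
        simp only [map_mul, Matrix.det_mul, mul_pow, LinearMap.smul_apply, Module.End.mul_apply,
          map_smul, mul_smul, Submodule.coe_smul, actH_coe, act_mul, AlgHom.comp_apply]
        rw [smul_comm] }

variable (ρ : G →* Matrix (Fin 2) (Fin 2) k)

lemma Sy_rep (n c : ℕ) (g : G) (f : Hm k n) :
    ((show Hm k n from (Sy ρ n c).rep g f) : MvPolynomial (Fin 2) k) =
      (ρ g).det ^ c • act (ρ g) f.1 := rfl

lemma dim_Sy (n c : ℕ) : (Sy ρ n c).dim = n + 1 := finrank_Hm n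

/-- multiplication of forms -/
noncomputable def mulL (k : Type u) [Field k] (a b n : ℕ) (h : a + b = n) :
    Hm k a →ₗ[k] Hm k b →ₗ[k] Hm k n :=
  LinearMap.mk₂ k (fun f g => ⟨f.1 * g.1, by
      rw [mem_homogeneousSubmodule, ← h]
      exact ((mem_homogeneousSubmodule _ _).1 f.2).mul ((mem_homogeneousSubmodule _ _).1 g.2)⟩)
    (fun f f' g => Subtype.ext (add_mul _ _ _)) (fun c f g => Subtype.ext (smul_mul_assoc _ _ _))
    (fun f g g' => Subtype.ext (mul_add _ _ _)) (fun c f g => Subtype.ext (mul_smul_comm _ _ _))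

lemma mulL_coe (a b n : ℕ) (h : a + b = n) (f : Hm k a) (g : Hm k b) :
    (mulL k a b n h f g : MvPolynomial (Fin 2) k) = f.1 * g.1 := rfl

lemma mulL_eqv (a b n : ℕ) (h : a + b = n) (c d e : ℕ) (h' : c + d = e) :
    Eqv ((Sy ρ a c).tensor (Sy ρ b d)) (Sy ρ n e) (TensorProduct.lift (mulL k a b n h)) := by
  apply Eqv.lift
  intro g f f'
  apply Subtype.ext
  rw [mulL_coe, Sy_rep, Sy_rep, Sy_rep, mulL_coe, map_mul, smul_mul_smul_comm, ← pow_add, h']

/-- the Jacobian of a form of degree `n + 1` and a linear form -/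
noncomputable def jacL (k : Type u) [Field k] (n : ℕ) :
    Hm k (n + 1) →ₗ[k] Hm k 1 →ₗ[k] Hm k n :=
  LinearMap.mk₂ k (fun f v => ⟨pderiv 0 f.1 * pderiv 1 v.1 - pderiv 1 f.1 * pderiv 0 v.1, by
      have hf := (mem_homogeneousSubmodule _ _).1 f.2
      have hv := (mem_homogeneousSubmodule _ _).1 v.2
      exact Submodule.sub_mem _ (hf.pderiv.mul hv.pderiv) (hf.pderiv.mul hv.pderiv)⟩)
    (fun f f' v => Subtype.ext (by
      simp only [Submodule.coe_add, map_add]
      ring))
    (fun c f v => Subtype.ext (by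
      simp only [Submodule.coe_smul, Derivation.map_smul, smul_mul_assoc, smul_sub]))
    (fun f v v' => Subtype.ext (by
      simp only [Submodule.coe_add, map_add]
      ring))
    (fun c f v => Subtype.ext (by
      simp only [Submodule.coe_smul, Derivation.map_smul, mul_smul_comm, smul_sub]))

lemma jacL_coe (n : ℕ) (f : Hm k (n + 1)) (v : Hm k 1) :
    (jacL k n f v : MvPolynomial (Fin 2) k) =
      pderiv 0 f.1 * pderiv 1 v.1 - pderiv 1 f.1 * pderiv 0 v.1 := rfl

lemma jac_act (M : Matrix (Fin 2) (Fin 2) k) (f v : MvPolynomial (Fin 2) k) :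
    pderiv 0 (act M f) * pderiv 1 (act M v) - pderiv 1 (act M f) * pderiv 0 (act M v) =
      M.det • act M (pderiv 0 f * pderiv 1 v - pderiv 1 f * pderiv 0 v) := by
  simp only [pderiv_act, Fin.sum_univ_two, Matrix.det_fin_two, map_sub, map_mul, smul_eq_C_mul]
  ring

lemma jacL_eqv (n c : ℕ) :
    Eqv ((Sy ρ (n + 1) c).tensor (Sy ρ 1 0)) (Sy ρ n (c + 1)) (TensorProduct.lift (jacL k n)) := by
  apply Eqv.lift
  intro g f v
  apply Subtype.ext
  rw [jacL_coe, Sy_rep, Sy_rep, Sy_rep, jacL_coe, pow_zero, one_smul, Derivation.map_smul,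
    Derivation.map_smul, smul_mul_assoc, smul_mul_assoc, ← smul_sub, jac_act, smul_smul, pow_succ]

/-- partial derivatives of forms -/
noncomputable def pdL (k : Type u) [Field k] (i : Fin 2) (n : ℕ) : Hm k (n + 1) →ₗ[k] Hm k n :=
  (pderiv i).toLinearMap.restrict fun f hf =>
    (show (pderiv i f).IsHomogeneous n from ((mem_homogeneousSubmodule _ _).1 hf).pderiv)

lemma pdL_coe (i : Fin 2) (n : ℕ) (f : Hm k (n + 1)) :
    (pdL k i n f : MvPolynomial (Fin 2) k) = pderiv i f.1 := rfl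

/-- multiplication by a variable -/
noncomputable def xL (k : Type u) [Field k] (i : Fin 2) (n : ℕ) : Hm k n →ₗ[k] Hm k (n + 1) :=
  (LinearMap.mulLeft k (X i : MvPolynomial (Fin 2) k)).restrict fun f hf => by
    have h := (isHomogeneous_X k i).mul ((mem_homogeneousSubmodule _ _).1 hf)
    rw [add_comm] at h
    exact h

lemma xL_coe (i : Fin 2) (n : ℕ) (f : Hm k n) :
    (xL k i n f : MvPolynomial (Fin 2) k) = X i * f.1 := rfl

/-- the variables as forms of degree one -/
noncomputable def xv (k : Type u) [Field k] (i : Fin 2) : Hm k 1 :=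
  ⟨X i, isHomogeneous_X k i⟩

lemma actH_xv (M : Matrix (Fin 2) (Fin 2) k) (j : Fin 2) :
    actH M 1 (xv k j) = M 0 j • xv k 0 + M 1 j • xv k 1 := by
  apply Subtype.ext
  rw [actH_coe]
  show act M (X j) = M 0 j • X 0 + M 1 j • X 1
  rw [act_X, Fin.sum_univ_two, smul_eq_C_mul, smul_eq_C_mul]

/-- polarisation -/
noncomputable def delL (k : Type u) [Field k] (n : ℕ) :
    Hm k (n + 1) →ₗ[k] Hm k n ⊗[k] Hm k 1 :=
  (TensorProduct.mk k (Hm k n) (Hm k 1)).flip (xv k 0) ∘ₗ pdL k 0 n +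
    (TensorProduct.mk k (Hm k n) (Hm k 1)).flip (xv k 1) ∘ₗ pdL k 1 n

lemma delL_apply (n : ℕ) (f : Hm k (n + 1)) :
    delL k n f = pdL k 0 n f ⊗ₜ xv k 0 + pdL k 1 n f ⊗ₜ xv k 1 := rfl

lemma pdL_actH (M : Matrix (Fin 2) (Fin 2) k) (i : Fin 2) (n : ℕ) (f : Hm k (n + 1)) :
    pdL k i n (actH M (n + 1) f) =
      M i 0 • actH M n (pdL k 0 n f) + M i 1 • actH M n (pdL k 1 n f) := by
  apply Subtype.ext
  rw [pdL_coe, actH_coe, pderiv_act, Fin.sum_univ_two]
  simp only [Submodule.coe_add, Submodule.coe_smul, actH_coe, pdL_coe, smul_eq_C_mul]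

lemma delL_act (M : Matrix (Fin 2) (Fin 2) k) (n : ℕ) (f : Hm k (n + 1)) :
    delL k n (actH M (n + 1) f) = TensorProduct.map (actH M n) (actH M 1) (delL k n f) := by
  rw [delL_apply, delL_apply, map_add, TensorProduct.map_tmul, TensorProduct.map_tmul, actH_xv,
    actH_xv, pdL_actH, pdL_actH]
  simp only [TensorProduct.add_tmul, TensorProduct.tmul_add, ← TensorProduct.smul_tmul',
    TensorProduct.tmul_smul]
  abel

lemma tensor_rep_eq (n c m : ℕ) (g : G) (z : Hm k n ⊗[k] Hm k m) :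
    ((Sy ρ n c).tensor (Sy ρ m 0)).rep g z =
      (ρ g).det ^ c • TensorProduct.map (actH (ρ g) n) (actH (ρ g) m) z := by
  show TensorProduct.map ((ρ g).det ^ c • actH (ρ g) n) ((ρ g).det ^ 0 • actH (ρ g) m) z = _
  rw [pow_zero, one_smul, TensorProduct.map_smul_left, LinearMap.smul_apply]

lemma delL_eqv (n c : ℕ) :
    Eqv (Sy ρ (n + 1) c) ((Sy ρ n c).tensor (Sy ρ 1 0)) (delL k n) := by
  intro g f
  rw [tensor_rep_eq, ← delL_act, ← map_smul]
  rfl

/-- the inclusion of the twisted forms of lower degree -/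
noncomputable def iotL (k : Type u) [Field k] (n : ℕ) :
    Hm k n →ₗ[k] Hm k (n + 1) ⊗[k] Hm k 1 :=
  (TensorProduct.mk k (Hm k (n + 1)) (Hm k 1)).flip (xv k 1) ∘ₗ xL k 0 n +
    (TensorProduct.mk k (Hm k (n + 1)) (Hm k 1)).flip (-xv k 0) ∘ₗ xL k 1 n

lemma iotL_apply (n : ℕ) (f : Hm k n) :
    iotL k n f = xL k 0 n f ⊗ₜ xv k 1 + xL k 1 n f ⊗ₜ (-xv k 0) := rfl

lemma actH_xL (M : Matrix (Fin 2) (Fin 2) k) (j : Fin 2) (n : ℕ) (f : Hm k n) :
    actH M (n + 1) (xL k j n f) =
      M 0 j • xL k 0 n (actH M n f) + M 1 j • xL k 1 n (actH M n f) := by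
  apply Subtype.ext
  rw [actH_coe, xL_coe, map_mul, act_X, Fin.sum_univ_two]
  simp only [Submodule.coe_add, Submodule.coe_smul, actH_coe, xL_coe, smul_eq_C_mul]
  ring

lemma iotL_act (M : Matrix (Fin 2) (Fin 2) k) (n : ℕ) (f : Hm k n) :
    TensorProduct.map (actH M (n + 1)) (actH M 1) (iotL k n f) =
      M.det • iotL k n (actH M n f) := by
  rw [iotL_apply, iotL_apply, map_add, TensorProduct.map_tmul, TensorProduct.map_tmul, map_neg,
    actH_xv, actH_xv, actH_xL, actH_xL, Matrix.det_fin_two]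
  simp only [TensorProduct.add_tmul, TensorProduct.tmul_add, ← TensorProduct.smul_tmul',
    TensorProduct.tmul_smul, TensorProduct.tmul_neg, neg_add_rev, smul_add, smul_neg]
  module

lemma iotL_eqv (n c : ℕ) :
    Eqv (Sy ρ n (c + 1)) ((Sy ρ (n + 1) c).tensor (Sy ρ 1 0)) (iotL k n) := by
  intro g f
  rw [tensor_rep_eq, iotL_act, smul_smul, ← pow_succ, ← map_smul]
  rfl

end Pool.Agent.H84BD
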