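import Pool.Agent.Helper84.BD.Split

/-!
The product of two Steinberg forms with the natural module, and the forms of degree `2p-1`.
-/

universe u v w

open scoped TensorProduct

namespace Pool.Agent.H84BD

open Pool.Agent.H80Green MvPolynomial

variable {k : Type u} [Field k] {G : Type v} [Group G]

section coords

/-- coordinates -/
noncomputable def ka (k : Type u) [Field k] (n i : ℕ) : Hm k n →ₗ[k] k where
  toFun f := coeff (ev (n - i) i) f.1
  map_add' _ _ := coeff_add _ _ _
  map_smul' _ _ := coeff_smul _ _ _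

lemma ka_apply (n i : ℕ) (f : Hm k n) : ka k n i f = coeff (ev (n - i) i) f.1 := rfl

lemma ka_big (n i : ℕ) (h : n < i) (f : Hm k n) : ka k n i f = 0 := by
  rw [ka_apply]
  apply ((mem_homogeneousSubmodule n f.1).1 f.2).coeff_eq_zero
  rw [degree_ev]
  omega

lemma ka_bas (n i : ℕ) (j : Fin (n + 1)) : ka k n i (bas k n j) = if (j : ℕ) = i then 1 else 0 := by
  rw [ka_apply, bas_apply, coeff_mo]
  by_cases h : (j : ℕ) = i
  · rw [if_pos h, if_pos ⟨by rw [h], h⟩]
  · rw [if_neg h, if_neg (fun h' => h h'.2)]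

/-- dehomogenisation -/
noncomputable def deh (k : Type u) [Field k] : MvPolynomial (Fin 2) k →ₐ[k] Polynomial k :=
  aeval ![1, Polynomial.X]

lemma deh_X0 : deh k (X 0) = 1 := by simp [deh]
lemma deh_X1 : deh k (X 1) = Polynomial.X := by simp [deh]

lemma mo_eq (a b : ℕ) : mo k a b = X 0 ^ a * X 1 ^ b := by
  induction a with
  | zero =>
    induction b with
    | zero => simp [mo, ev]
    | succ b ih =>
      have h := mo_mul (k := k) 0 b 0 1
      rw [add_zero] at h
      rw [← h, ih, mo_X1, pow_succ]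
      ring
  | succ a ih =>
    have h := mo_mul (k := k) a b 1 0
    rw [add_zero] at h
    rw [← h, ih, mo_X0, pow_succ]
    ring

lemma deh_mo (a b : ℕ) : deh k (mo k a b) = Polynomial.X ^ b := by
  rw [mo_eq, map_mul, map_pow, map_pow, deh_X0, deh_X1, one_pow, one_mul]

lemma deh_coeff (n i : ℕ) (f : Hm k n) : (deh k f.1).coeff i = ka k n i f := by
  have h : (Polynomial.lcoeff k i) ∘ₗ (deh k).toLinearMap ∘ₗ (Hm k n).subtype = ka k n i := by
    apply (bas k n).ext
    intro j
    rw [ka_bas]
    show (deh k (bas k n j).1).coeff i = _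
    rw [bas_apply, deh_mo, Polynomial.coeff_X_pow]
    simp only [eq_comm]
  exact LinearMap.congr_fun h f

lemma deh_inj (n : ℕ) (f : Hm k n) (h : deh k f.1 = 0) : f = 0 := by
  apply (bas k n).ext_elem
  intro i
  rw [bas_repr, ← ka_apply, ← deh_coeff, h, map_zero]
  rfl

/-- tensor product of two linear forms -/
noncomputable def tf {M N : Type*} [AddCommMonoid M] [Module k M] [AddCommMonoid N] [Module k N]
    (φ : M →ₗ[k] k) (ψ : N →ₗ[k] k) : M ⊗[k] N →ₗ[k] k :=
  TensorProduct.lift ((LinearMap.mul k k).compl₁₂ φ ψ)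

lemma tf_tmul {M N : Type*} [AddCommMonoid M] [Module k M] [AddCommMonoid N] [Module k N]
    (φ : M →ₗ[k] k) (ψ : N →ₗ[k] k) (x : M) (y : N) : tf φ ψ (x ⊗ₜ y) = φ x * ψ y := rfl

lemma tf_eq_zero {M N : Type*} [AddCommGroup M] [Module k M] [AddCommGroup N] [Module k N]
    {ι κ : Type*} [Finite ι] [Finite κ] (b : Module.Basis ι k M) (c : Module.Basis κ k N) (z : M ⊗[k] N)
    (h : ∀ i j, tf (b.coord i) (c.coord j) z = 0) : z = 0 := by
  apply (b.tensorProduct c).ext_elem
  rintro ⟨i, j⟩
  rw [map_zero, Finsupp.zero_apply, ← h i j]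
  clear h
  induction z using TensorProduct.induction_on with
  | zero => simp only [map_zero, Finsupp.zero_apply]
  | tmul x y => rw [Module.Basis.tensorProduct_repr_tmul_apply, tf_tmul]; simp [mul_comm]
  | add x y hx hy => simp only [map_add, Finsupp.add_apply, hx, hy]

end coords

end Pool.Agent.H84BD
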