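import Pool.Agent.Helper84.BD.Phi

/-!
Injectivity of the map from `(St ⊗ St) ⊗ V`.
-/

universe u v w

open scoped TensorProduct

namespace Pool.Agent.H84BD

open Pool.Agent.H80Green MvPolynomial

variable {k : Type u} [Field k] {G : Type v} [Group G]

lemma ka_pd1 (n t : ℕ) (f : Hm k (n + 1)) :
    ka k n t (pdL k 1 n f) = ((t : k) + 1) * ka k (n + 1) (t + 1) f := by
  have h : ka k n t ∘ₗ pdL k 1 n = ((t : k) + 1) • ka k (n + 1) (t + 1) := by
    apply (bas k (n + 1)).ext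
    intro j
    rw [LinearMap.smul_apply, ka_bas, LinearMap.comp_apply, ka_apply, pdL_coe, bas_apply]
    rcases Nat.eq_zero_or_pos (j : ℕ) with h0 | h0
    · rw [h0, pderiv1_mo_zero, coeff_zero, if_neg (by omega), smul_zero]
    · obtain ⟨j', hj'⟩ := Nat.exists_eq_succ_of_ne_zero h0.ne'
      rw [hj', Nat.succ_eq_add_one, pderiv1_mo, coeff_smul, coeff_mo]
      by_cases h1 : j' = t
      · rw [if_pos ⟨by omega, h1⟩, if_pos (by omega), h1]
      · rw [if_neg (fun h => h1 h.2), if_neg (by omega), smul_zero, smul_zero]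
  exact LinearMap.congr_fun h f

lemma ka_pd0 (n t : ℕ) (ht : t ≤ n) (f : Hm k (n + 1)) :
    ka k n t (pdL k 0 n f) = (((n - t : ℕ) : k) + 1) * ka k (n + 1) t f := by
  have h : ka k n t ∘ₗ pdL k 0 n = (((n - t : ℕ) : k) + 1) • ka k (n + 1) t := by
    apply (bas k (n + 1)).ext
    intro j
    rw [LinearMap.smul_apply, ka_bas, LinearMap.comp_apply, ka_apply, pdL_coe, bas_apply]
    rcases Nat.lt_or_ge n (j : ℕ) with h0 | h0
    · rw [show n + 1 - (j : ℕ) = 0 by omega, pderiv0_mo_zero, coeff_zero, if_neg (by omega),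
        smul_zero]
    · rw [show n + 1 - (j : ℕ) = (n - j) + 1 by omega, pderiv0_mo, coeff_smul, coeff_mo]
      by_cases h1 : (j : ℕ) = t
      · rw [if_pos ⟨by rw [h1], h1⟩, if_pos h1, h1]
      · rw [if_neg (fun h => h1 h.2), if_neg h1, smul_zero, smul_zero]
  exact LinearMap.congr_fun h f

lemma ka_xv00 : ka k 1 0 (xv k 0) = 1 := by
  rw [← bas_one_zero, ka_bas]; rfl
lemma ka_xv01 : ka k 1 0 (xv k 1) = 0 := by
  rw [← bas_one_one, ka_bas]; rfl
lemma ka_xv10 : ka k 1 1 (xv k 0) = 0 := by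
  rw [← bas_one_zero, ka_bas]; rfl
lemma ka_xv11 : ka k 1 1 (xv k 1) = 1 := by
  rw [← bas_one_one, ka_bas]; rfl

lemma hm1_eq (v : Hm k 1) : v = ka k 1 0 v • xv k 0 + ka k 1 1 v • xv k 1 := by
  have h : (LinearMap.id : Hm k 1 →ₗ[k] Hm k 1) =
      (ka k 1 0).smulRight (xv k 0) + (ka k 1 1).smulRight (xv k 1) := by
    apply (bas k 1).ext
    intro j
    fin_cases j
    · show bas k 1 0 = ka k 1 0 (bas k 1 0) • xv k 0 + ka k 1 1 (bas k 1 0) • xv k 1
      rw [bas_one_zero, ka_xv00, ka_xv10, one_smul, zero_smul, add_zero]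
    · show bas k 1 1 = ka k 1 0 (bas k 1 1) • xv k 0 + ka k 1 1 (bas k 1 1) • xv k 1
      rw [bas_one_one, ka_xv01, ka_xv11, one_smul, zero_smul, zero_add]
  exact LinearMap.congr_fun h v

lemma ka_jac (m t : ℕ) (h0 : (m : k) + 2 = 0) (ht : t ≤ m) (f : Hm k (m + 1)) (v : Hm k 1) :
    ka k m t (jacL k m f v) = -((t : k) + 1) *
      (ka k (m + 1) t f * ka k 1 1 v + ka k (m + 1) (t + 1) f * ka k 1 0 v) := by
  have h1 : jacL k m f v = ka k 1 0 v • jacL k m f (xv k 0) + ka k 1 1 v • jacL k m f (xv k 1) := by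
    conv_lhs => rw [hm1_eq v]
    rw [map_add, map_smul, map_smul]
  have h2 : (((m - t : ℕ) : k) + 1) = -((t : k) + 1) := by
    rw [Nat.cast_sub ht]
    linear_combination h0
  rw [h1, jac_x0, jac_x1, map_add, map_smul, map_smul, map_neg, ka_pd1, ka_pd0 m t ht, h2]
  simp only [smul_eq_mul]
  ring

/-- coordinates on the triple product -/
noncomputable def qf (k : Type u) [Field k] (n i j l : ℕ) :
    (Hm k n ⊗[k] Hm k n) ⊗[k] Hm k 1 →ₗ[k] k :=
  tf (tf (ka k n i) (ka k n j)) (ka k 1 l)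

lemma qf_tmul (n i j l : ℕ) (f g : Hm k n) (v : Hm k 1) :
    qf k n i j l ((f ⊗ₜ g) ⊗ₜ v) = ka k n i f * ka k n j g * ka k 1 l v := rfl

/-- induction on triple tensors for linear maps -/
lemma triple_ext {A B C N : Type*} [AddCommMonoid A] [Module k A] [AddCommMonoid B] [Module k B]
    [AddCommMonoid C] [Module k C] [AddCommMonoid N] [Module k N]
    {F F' : (A ⊗[k] B) ⊗[k] C →ₗ[k] N}
    (h : ∀ a b c, F ((a ⊗ₜ b) ⊗ₜ c) = F' ((a ⊗ₜ b) ⊗ₜ c)) : F = F' :=
  TensorProduct.ext_threefold h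

lemma qf_big1 (n i j l : ℕ) (h : n < i) : qf k n i j l = 0 := by
  apply triple_ext
  intro f g v
  rw [qf_tmul, ka_big n i h, zero_mul, zero_mul]
  rfl

lemma qf_big2 (n i j l : ℕ) (h : n < j) : qf k n i j l = 0 := by
  apply triple_ext
  intro f g v
  rw [qf_tmul, ka_big n j h, mul_zero, zero_mul]
  rfl

/-- the product of all three -/
noncomputable def ph1 (k : Type u) [Field k] (n : ℕ) :
    (Hm k n ⊗[k] Hm k n) ⊗[k] Hm k 1 →ₗ[k] Hm k (n + n + 1) :=
  TensorProduct.lift (mulL k (n + n) 1 (n + n + 1) rfl) ∘ₗ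
    TensorProduct.map (TensorProduct.lift (mulL k n n (n + n) rfl)) LinearMap.id

lemma ph1_tmul (n : ℕ) (f g : Hm k n) (v : Hm k 1) :
    (ph1 k n ((f ⊗ₜ g) ⊗ₜ v) : MvPolynomial (Fin 2) k) = f.1 * g.1 * v.1 := rfl

/-- the Jacobian of the last two -/
noncomputable def ph2 (k : Type u) [Field k] (m : ℕ) :
    (Hm k (m + 1) ⊗[k] Hm k (m + 1)) ⊗[k] Hm k 1 →ₗ[k] Hm k (m + 1) ⊗[k] Hm k m :=
  TensorProduct.map LinearMap.id (TensorProduct.lift (jacL k m)) ∘ₗ
    (TensorProduct.assoc k _ _ _).toLinearMap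

lemma ph2_tmul (m : ℕ) (f g : Hm k (m + 1)) (v : Hm k 1) :
    ph2 k m ((f ⊗ₜ g) ⊗ₜ v) = f ⊗ₜ jacL k m g v := rfl

/-- exchange of the first two factors -/
noncomputable def sw (k : Type u) [Field k] (n : ℕ) :
    (Hm k n ⊗[k] Hm k n) ⊗[k] Hm k 1 →ₗ[k] (Hm k n ⊗[k] Hm k n) ⊗[k] Hm k 1 :=
  TensorProduct.map (TensorProduct.comm k _ _).toLinearMap LinearMap.id

lemma sw_tmul (n : ℕ) (f g : Hm k n) (v : Hm k 1) :
    sw k n ((f ⊗ₜ g) ⊗ₜ v) = (g ⊗ₜ f) ⊗ₜ v := rfl

lemma qf_sw (n i j l : ℕ) (z : (Hm k n ⊗[k] Hm k n) ⊗[k] Hm k 1) :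
    qf k n i j l (sw k n z) = qf k n j i l z := by
  have h : qf k n i j l ∘ₗ sw k n = qf k n j i l := by
    apply triple_ext
    intro f g v
    rw [LinearMap.comp_apply, sw_tmul, qf_tmul, qf_tmul]
    ring
  exact LinearMap.congr_fun h z

lemma rel2 (m i t : ℕ) (h0 : (m : k) + 2 = 0) (h1 : ((t : k) + 1) ≠ 0) (ht : t ≤ m)
    (z : (Hm k (m + 1) ⊗[k] Hm k (m + 1)) ⊗[k] Hm k 1) (hz : ph2 k m z = 0) :
    qf k (m + 1) i t 1 z + qf k (m + 1) i (t + 1) 0 z = 0 := by
  have h : tf (ka k (m + 1) i) (ka k m t) ∘ₗ ph2 k m =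
      (-((t : k) + 1)) • (qf k (m + 1) i t 1 + qf k (m + 1) i (t + 1) 0) := by
    apply triple_ext
    intro f g v
    rw [LinearMap.comp_apply, ph2_tmul, tf_tmul, ka_jac m t h0 ht, LinearMap.smul_apply,
      LinearMap.add_apply, qf_tmul, qf_tmul, smul_eq_mul]
    ring
  have h2 := LinearMap.congr_fun h z
  rw [LinearMap.comp_apply, hz, map_zero, LinearMap.smul_apply, LinearMap.add_apply,
    smul_eq_mul] at h2
  exact (mul_eq_zero.1 h2.symm).resolve_left (neg_ne_zero.2 h1)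

lemma deh_v (v : Hm k 1) : deh k v.1 =
    Polynomial.C (ka k 1 0 v) + Polynomial.C (ka k 1 1 v) * Polynomial.X := by
  conv_lhs => rw [hm1_eq v]
  rw [Submodule.coe_add, Submodule.coe_smul, Submodule.coe_smul, map_add, map_smul, map_smul]
  show ka k 1 0 v • deh k (X 0) + ka k 1 1 v • deh k (X 1) = _
  rw [deh_X0, deh_X1, Polynomial.smul_eq_C_mul, Polynomial.smul_eq_C_mul, mul_one]

lemma rel1_zero (n : ℕ) (z : (Hm k n ⊗[k] Hm k n) ⊗[k] Hm k 1) (hz : ph1 k n z = 0) :
    qf k n 0 0 0 z = 0 := by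
  have h : (Polynomial.lcoeff k 0) ∘ₗ (deh k).toLinearMap ∘ₗ (Hm k (n + n + 1)).subtype ∘ₗ
      ph1 k n = qf k n 0 0 0 := by
    apply triple_ext
    intro f g v
    show (deh k (ph1 k n ((f ⊗ₜ g) ⊗ₜ v)).1).coeff 0 = _
    rw [ph1_tmul, map_mul, map_mul, qf_tmul, Polynomial.mul_coeff_zero, Polynomial.mul_coeff_zero,
      deh_coeff, deh_coeff, deh_coeff]
  rw [← LinearMap.congr_fun h z]
  simp only [LinearMap.comp_apply, hz, map_zero]

lemma rel1_succ (n s : ℕ) (z : (Hm k n ⊗[k] Hm k n) ⊗[k] Hm k 1) (hz : ph1 k n z = 0) :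
    qf k n (s + 1) 0 0 z + ∑ x ∈ Finset.HasAntidiagonal.antidiagonal s,
      (qf k n x.1 x.2 1 z + qf k n x.1 (x.2 + 1) 0 z) = 0 := by
  have h : (Polynomial.lcoeff k (s + 1)) ∘ₗ (deh k).toLinearMap ∘ₗ
      (Hm k (n + n + 1)).subtype ∘ₗ ph1 k n = qf k n (s + 1) 0 0 +
        ∑ x ∈ Finset.HasAntidiagonal.antidiagonal s, (qf k n x.1 x.2 1 + qf k n x.1 (x.2 + 1) 0) := by
    apply triple_ext
    intro f g v
    show (deh k (ph1 k n ((f ⊗ₜ g) ⊗ₜ v)).1).coeff (s + 1) = _
    rw [ph1_tmul, map_mul, map_mul, deh_v, mul_add, Polynomial.coeff_add, Polynomial.coeff_mul_C,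
      ← mul_assoc, Polynomial.coeff_mul_X, Polynomial.coeff_mul_C, Polynomial.coeff_mul,
      Polynomial.coeff_mul, Finset.Nat.sum_antidiagonal_succ']
    simp only [deh_coeff, LinearMap.add_apply, LinearMap.sum_apply, qf_tmul,
      Finset.sum_add_distrib, Finset.sum_mul, add_mul]
    ring
  have h2 := LinearMap.congr_fun h z
  simp only [LinearMap.comp_apply, hz, map_zero, LinearMap.add_apply, LinearMap.sum_apply] at h2
  exact h2.symm

/-- the three maps together are injective -/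
lemma phi_inj (m : ℕ) (h0 : (m : k) + 2 = 0) (h1 : ∀ t ≤ m, ((t : k) + 1) ≠ 0)
    (z : (Hm k (m + 1) ⊗[k] Hm k (m + 1)) ⊗[k] Hm k 1) (hz1 : ph1 k (m + 1) z = 0)
    (hz2 : ph2 k m z = 0) (hz3 : ph2 k m (sw k (m + 1) z) = 0) : z = 0 := by
  have R2 : ∀ i t, t ≤ m → qf k (m + 1) i t 1 z + qf k (m + 1) i (t + 1) 0 z = 0 :=
    fun i t ht => rel2 m i t h0 (h1 t ht) ht z hz2
  have R3 : ∀ j t, t ≤ m → qf k (m + 1) t j 1 z + qf k (m + 1) (t + 1) j 0 z = 0 := by
    intro j t ht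
    have := rel2 m j t h0 (h1 t ht) ht _ hz3
    rwa [qf_sw, qf_sw] at this
  have V1 : ∀ i j l, m + 1 < i → qf k (m + 1) i j l z = 0 := fun i j l h => by
    rw [qf_big1 _ _ _ _ h, LinearMap.zero_apply]
  have V2 : ∀ i j l, m + 1 < j → qf k (m + 1) i j l z = 0 := fun i j l h => by
    rw [qf_big2 _ _ _ _ h, LinearMap.zero_apply]
  -- the edges
  have E0 : ∀ i, qf k (m + 1) i 0 0 z = 0 := by
    intro i
    rcases Nat.eq_zero_or_pos i with h | h
    · rw [h]; exact rel1_zero _ z hz1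
    · obtain ⟨s, rfl⟩ := Nat.exists_eq_succ_of_ne_zero h.ne'
      rcases Nat.lt_or_ge m s with hs | hs
      · exact V1 _ _ _ (by omega)
      · have h2 := rel1_succ (m + 1) s z hz1
        rw [Finset.sum_eq_zero, add_zero] at h2
        · exact h2
        · intro x hx
          rw [Finset.HasAntidiagonal.mem_antidiagonal] at hx
          exact R2 x.1 x.2 (by omega)
  have E1 : ∀ i, qf k (m + 1) i (m + 1) 1 z = 0 := by
    intro i
    have h2 := rel1_succ (m + 1) (i + (m + 1)) z hz1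
    rw [V1 _ _ _ (by omega), zero_add, Finset.sum_eq_single (i, m + 1)] at h2
    · simp only at h2
      rw [V2 i (m + 1 + 1) 0 (by omega), add_zero] at h2
      exact h2
    · intro x hx hne
      rw [Finset.HasAntidiagonal.mem_antidiagonal] at hx
      rcases Nat.lt_or_ge m x.2 with h | h
      · have h3 : m + 1 < x.2 := by
          rcases Nat.lt_or_ge (m + 1) x.2 with h4 | h4
          · exact h4
          · exfalso
            apply hne
            exact Prod.ext (by simp only; omega) (by simp only; omega)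
        rw [V2 _ _ _ h3, V2 _ _ _ (by omega), add_zero]
      · exact R2 x.1 x.2 h
    · intro h
      exact (h (Finset.HasAntidiagonal.mem_antidiagonal.2
        (rfl : (i, m + 1).1 + (i, m + 1).2 = i + (m + 1)))).elim
  have Sa : ∀ j i, i + j ≤ m + 1 → qf k (m + 1) i j 0 z = 0 := by
    intro j
    induction j with
    | zero => exact fun i _ => E0 i
    | succ j ih =>
      intro i hij
      have h2 := R2 i j (by omega)
      have h3 := R3 j i (by omega)
      have h4 := ih (i + 1) (by omega)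
      rw [h4, add_zero] at h3
      rw [h3, zero_add] at h2
      exact h2
  have Sb : ∀ d i j, j + d = m + 1 → m + 1 ≤ i + j → qf k (m + 1) i j 1 z = 0 := by
    intro d
    induction d with
    | zero =>
      intro i j hj _
      rw [add_zero] at hj
      rw [hj]
      exact E1 i
    | succ d ih =>
      intro i j hj hij
      rcases Nat.lt_or_ge (m + 1) i with h | h
      · exact V1 _ _ _ h
      · obtain ⟨i', rfl⟩ := Nat.exists_eq_succ_of_ne_zero (show i ≠ 0 by omega)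
        have h2 := R2 (i' + 1) j (by omega)
        have h3 := R3 (j + 1) i' (by omega)
        have h4 := ih i' (j + 1) (by omega) (by omega)
        rw [h4, zero_add] at h3
        rw [h3, add_zero] at h2
        exact h2
  have Sb' : ∀ i j, m + 1 ≤ i + j → qf k (m + 1) i j 1 z = 0 := by
    intro i j hij
    rcases Nat.lt_or_ge (m + 1) j with h | h
    · exact V2 _ _ _ h
    · exact Sb (m + 1 - j) i j (by omega) hij
  have Sc : ∀ i j, qf k (m + 1) i j 0 z = 0 := by
    intro i j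
    rcases Nat.lt_or_ge (m + 1) (i + j) with h | h
    · rcases Nat.eq_zero_or_pos j with h2 | h2
      · rw [h2]; exact E0 i
      · obtain ⟨t, rfl⟩ := Nat.exists_eq_succ_of_ne_zero h2.ne'
        rcases Nat.lt_or_ge m t with h3 | h3
        · exact V2 _ _ _ (by omega)
        · have h4 := R2 i t h3
          rw [Sb' i t (by omega), zero_add] at h4
          exact h4
    · exact Sa j i h
  have Sd : ∀ i j, qf k (m + 1) i j 1 z = 0 := by
    intro i j
    rcases Nat.lt_or_ge m j with h | h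
    · exact Sb' i j (by omega)
    · have h4 := R2 i j h
      rw [Sc, add_zero] at h4
      exact h4
  refine tf_eq_zero (M := Hm k (m + 1) ⊗[k] Hm k (m + 1))
    ((bas k (m + 1)).tensorProduct (bas k (m + 1))) (bas k 1) z ?_
  rintro ⟨i, j⟩ l
  have h5 : tf (((bas k (m + 1)).tensorProduct (bas k (m + 1))).coord (i, j))
      ((bas k 1).coord l) = qf k (m + 1) i j l := by
    apply triple_ext
    intro f g v
    rw [tf_tmul, qf_tmul]
    congr 1
    rw [Module.Basis.coord_apply, Module.Basis.tensorProduct_repr_tmul_apply]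
    simp only [bas_repr, ka_apply, smul_eq_mul]
    ring
  rw [h5]
  fin_cases l
  · exact Sc i j
  · exact Sd i j

end Pool.Agent.H84BD
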