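import Pool.Agent.Helper84.BD.KS

/-!
Binary forms: the action of two by two matrices, homogeneous forms and their monomial basis.
-/

universe u v w

open scoped TensorProduct

namespace Pool.Agent.H84BD

open Pool.Agent.H80Green MvPolynomial

variable {k : Type u} [Field k]

/-- The action of a matrix on polynomials in two variables: `X_j` goes to `sum_i M_{ij} X_i`. -/
noncomputable def act (M : Matrix (Fin 2) (Fin 2) k) :
    MvPolynomial (Fin 2) k →ₐ[k] MvPolynomial (Fin 2) k :=
  aeval fun j => ∑ i, C (M i j) * X i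

lemma act_X (M : Matrix (Fin 2) (Fin 2) k) (j : Fin 2) :
    act M (X j) = ∑ i, C (M i j) * X i := aeval_X _ _

lemma act_one : act (1 : Matrix (Fin 2) (Fin 2) k) = AlgHom.id k _ := by
  apply MvPolynomial.algHom_ext
  intro j
  rw [act_X, AlgHom.id_apply]
  fin_cases j <;> simp [Fin.sum_univ_two, Matrix.one_apply]

lemma act_mul (M N : Matrix (Fin 2) (Fin 2) k) : act (M * N) = (act M).comp (act N) := by
  apply MvPolynomial.algHom_ext
  intro j
  rw [act_X, AlgHom.comp_apply, act_X, map_sum]
  simp only [map_mul, act_X, Matrix.mul_apply, Fin.sum_univ_two, map_add,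
    MvPolynomial.algHom_C, algebraMap_eq]
  ring

lemma act_homog (M : Matrix (Fin 2) (Fin 2) k) {n : ℕ} {f : MvPolynomial (Fin 2) k}
    (hf : f.IsHomogeneous n) : (act M f).IsHomogeneous n := by
  have h := hf.aeval (fun j => ∑ i, C (M i j) * X i) (n := 1) fun j =>
    IsHomogeneous.sum _ _ _ fun i _ => by
      simpa using (isHomogeneous_C (Fin 2) (M i j)).mul (isHomogeneous_X k i)
  rw [one_mul] at h
  exact h

lemma pderiv_act (M : Matrix (Fin 2) (Fin 2) k) (i : Fin 2) (f : MvPolynomial (Fin 2) k) :
    pderiv i (act M f) = ∑ l, C (M i l) * act M (pderiv l f) := by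
  induction f using MvPolynomial.induction_on with
  | C a => simp [act, algHom_C]
  | add p q hp hq => simp only [map_add, hp, hq, mul_add, Finset.sum_add_distrib]
  | mul_X p j hp =>
    rw [map_mul, Derivation.leibniz, hp, act_X]
    have h1 : pderiv i (∑ i, C (M i j) * X i : MvPolynomial (Fin 2) k) = C (M i j) := by
      rw [map_sum, Fin.sum_univ_two]
      simp only [pderiv_C_mul, pderiv_X]
      fin_cases i <;> simp
    rw [h1]
    simp only [Derivation.leibniz, smul_eq_mul, map_add, map_mul, pderiv_X, Fin.sum_univ_two,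
      act_X]
    fin_cases j <;> simp <;> ring

/-- Homogeneous forms of degree `n`. -/
noncomputable abbrev Hm (k : Type u) [Field k] (n : ℕ) :
    Submodule k (MvPolynomial (Fin 2) k) :=
  homogeneousSubmodule (Fin 2) k n

/-- exponent vector -/
noncomputable def ev (a b : ℕ) : Fin 2 →₀ ℕ := Finsupp.single 0 a + Finsupp.single 1 b

lemma ev_zero (a b : ℕ) : ev a b 0 = a := by simp [ev]
lemma ev_one (a b : ℕ) : ev a b 1 = b := by simp [ev]

lemma ev_inj {a b c d : ℕ} (h : ev a b = ev c d) : a = c ∧ b = d := by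
  have h0 := DFunLike.congr_fun h 0
  have h1 := DFunLike.congr_fun h 1
  rw [ev_zero, ev_zero] at h0
  rw [ev_one, ev_one] at h1
  exact ⟨h0, h1⟩

lemma ev_eq_iff {a b c d : ℕ} : ev a b = ev c d ↔ a = c ∧ b = d :=
  ⟨ev_inj, fun h => by rw [h.1, h.2]⟩

lemma eq_ev (d : Fin 2 →₀ ℕ) : d = ev (d 0) (d 1) := by
  ext i
  fin_cases i
  · exact (ev_zero _ _).symm
  · exact (ev_one _ _).symm

/-- the monomial `X_0^a X_1^b` -/
noncomputable def mo (k : Type u) [Field k] (a b : ℕ) : MvPolynomial (Fin 2) k :=
  monomial (ev a b) 1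

lemma degree_ev (a b : ℕ) : (ev a b).degree = a + b := by
  simp [ev]

lemma mo_homog (a b : ℕ) : (mo k a b).IsHomogeneous (a + b) :=
  isHomogeneous_monomial _ (degree_ev a b)

lemma mo_mem {a b n : ℕ} (h : a + b = n) : mo k a b ∈ Hm k n := by
  rw [mem_homogeneousSubmodule, ← h]
  exact mo_homog a b

lemma mo_mul (a b c d : ℕ) : mo k a b * mo k c d = mo k (a + c) (b + d) := by
  rw [mo, mo, mo, monomial_mul, one_mul]
  congr 1
  simp only [ev, Finsupp.single_add]
  abel

lemma mo_X0 : mo k 1 0 = X 0 := by simp [mo, ev, X]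
lemma mo_X1 : mo k 0 1 = X 1 := by simp [mo, ev, X]

lemma coeff_mo (a b c d : ℕ) : coeff (ev c d) (mo k a b) = if a = c ∧ b = d then 1 else 0 := by
  rw [mo, coeff_monomial]
  by_cases h : a = c ∧ b = d
  · rw [if_pos h, if_pos (by rw [h.1, h.2])]
  · rw [if_neg h, if_neg (fun h' => h (ev_inj h'))]

lemma pderiv0_mo (a b : ℕ) : pderiv 0 (mo k (a + 1) b) = ((a : k) + 1) • mo k a b := by
  have h : ev (a + 1) b - Finsupp.single 0 1 = ev a b := by
    ext i
    fin_cases i <;> simp [ev]
  rw [mo, pderiv_monomial, ev_zero, mo, smul_monomial, h]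
  simp

lemma pderiv0_mo_zero (b : ℕ) : pderiv 0 (mo k 0 b) = 0 := by
  rw [mo, pderiv_monomial, ev_zero]
  simp

lemma pderiv1_mo (a b : ℕ) : pderiv 1 (mo k a (b + 1)) = ((b : k) + 1) • mo k a b := by
  have h : ev a (b + 1) - Finsupp.single 1 1 = ev a b := by
    ext i
    fin_cases i <;> simp [ev]
  rw [mo, pderiv_monomial, ev_one, mo, smul_monomial, h]
  simp

lemma pderiv1_mo_zero (a : ℕ) : pderiv 1 (mo k a 0) = 0 := by
  rw [mo, pderiv_monomial, ev_one]
  simp

/-- coordinates of homogeneous forms -/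
noncomputable def coordEquiv (k : Type u) [Field k] (n : ℕ) : Hm k n ≃ₗ[k] (Fin (n + 1) → k) where
  toFun f i := coeff (ev (n - i) i) f.1
  map_add' f g := by
    funext i
    exact coeff_add _ _ _
  map_smul' c f := by
    funext i
    exact coeff_smul _ _ _
  invFun c := ⟨∑ i : Fin (n + 1), c i • mo k (n - i) i, Submodule.sum_mem _ fun i _ =>
    Submodule.smul_mem _ _ (mo_mem (by omega))⟩
  left_inv f := by
    apply Subtype.ext
    show ∑ i : Fin (n + 1), coeff (ev (n - i) i) f.1 • mo k (n - i) i = f.1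
    ext d
    rw [coeff_sum]
    by_cases hd : d 0 + d 1 = n
    · rw [Finset.sum_eq_single (⟨d 1, by omega⟩ : Fin (n + 1))]
      · simp only [coeff_smul, smul_eq_mul]
        have h1 : ev (n - d 1) (d 1) = d := by
          rw [eq_ev d]
          simp only [ev_zero, ev_one]
          congr 1
          omega
        rw [h1, mo, h1, coeff_monomial, if_pos rfl, mul_one]
      · intro i _ hi
        rw [coeff_smul, mo, coeff_monomial, if_neg, smul_zero]
        intro h
        apply hi
        apply Fin.ext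
        have h1 := DFunLike.congr_fun h 1
        rw [ev_one] at h1
        exact h1
      · intro h
        exact absurd (Finset.mem_univ _) h
    · have h0 : coeff d f.1 = 0 := by
        apply ((mem_homogeneousSubmodule n f.1).1 f.2).coeff_eq_zero
        rw [eq_ev d, degree_ev]
        exact hd
      rw [h0]
      apply Finset.sum_eq_zero
      intro i _
      rw [coeff_smul, mo, coeff_monomial, if_neg, smul_zero]
      intro h
      apply hd
      have h1 := DFunLike.congr_fun h 1
      have h2 := DFunLike.congr_fun h 0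
      rw [ev_one] at h1
      rw [ev_zero] at h2
      omega
  right_inv c := by
    funext j
    show coeff (ev (n - j) j) (∑ i : Fin (n + 1), c i • mo k (n - i) i) = c j
    rw [coeff_sum, Finset.sum_eq_single j]
    · rw [coeff_smul, coeff_mo, if_pos ⟨rfl, rfl⟩, smul_eq_mul, mul_one]
    · intro i _ hi
      rw [coeff_smul, coeff_mo, if_neg, smul_zero]
      rintro ⟨-, h⟩
      exact hi (Fin.ext h)
    · intro h
      exact absurd (Finset.mem_univ _) h

instance (n : ℕ) : Module.Finite k (Hm k n) :=
  Module.Finite.equiv (coordEquiv k n).symm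

/-- the monomial basis -/
noncomputable def bas (k : Type u) [Field k] (n : ℕ) : Module.Basis (Fin (n + 1)) k (Hm k n) :=
  Module.Basis.ofEquivFun (coordEquiv k n)

lemma bas_apply (n : ℕ) (i : Fin (n + 1)) : (bas k n i : MvPolynomial (Fin 2) k) =
    mo k (n - i) i := by
  rw [bas, Module.Basis.coe_ofEquivFun]
  show ∑ j : Fin (n + 1), (Pi.single i (1 : k) : Fin (n + 1) → k) j • mo k (n - j) j = _
  rw [Finset.sum_eq_single i]
  · rw [Pi.single_eq_same, one_smul]
  · intro j _ hj
    rw [Pi.single_eq_of_ne hj, zero_smul]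
  · intro h
    exact absurd (Finset.mem_univ _) h

lemma bas_repr (n : ℕ) (f : Hm k n) (i : Fin (n + 1)) :
    (bas k n).repr f i = coeff (ev (n - i) i) f.1 := rfl

lemma finrank_Hm (n : ℕ) : Module.finrank k (Hm k n) = n + 1 := by
  rw [(coordEquiv k n).finrank_eq, Module.finrank_fin_fun]

end Pool.Agent.H84BD
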