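import Pool.Agent.Helper80.Green.Official

/-!
Retracts of modules, modules which are retracts of sums of modules of a class, and the exchange
property (Krull-Schmidt) in the form needed for MP_bd685a.
-/

universe u v w

open scoped TensorProduct

namespace Pool.Agent.H84BD

open Pool.Agent.H80Green

variable {k : Type u} [Field k] {G : Type v} [Group G] {H : Type w} [Group H]

/-- `X` is a retract (direct summand) of `Y`. -/
def Ret (X Y : Md k G) : Prop :=
  ∃ (i : X.carrier →ₗ[k] Y.carrier) (r : Y.carrier →ₗ[k] X.carrier),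
    (∀ (g : G) (x : X.carrier), i (X.rep g x) = Y.rep g (i x)) ∧
    (∀ (g : G) (y : Y.carrier), r (Y.rep g y) = X.rep g (r y)) ∧ ∀ x, r (i x) = x

/-- The restriction of a module along a homomorphism. -/
abbrev res (π : H →* G) (X : Md k G) : Md k H where
  carrier := X.carrier
  rep := X.rep.comp π

lemma res_rep (π : H →* G) (X : Md k G) (h : H) (x : X.carrier) :
    (res π X).rep h x = X.rep (π h) x := rfl

lemma Ret.refl (X : Md k G) : Ret X X :=
  ⟨LinearMap.id, LinearMap.id, fun _ _ => rfl, fun _ _ => rfl, fun _ => rfl⟩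

lemma Ret.trans {X Y Z : Md k G} (h : Ret X Y) (h' : Ret Y Z) : Ret X Z := by
  obtain ⟨i, r, hi, hr, h⟩ := h
  obtain ⟨i', r', hi', hr', h'⟩ := h'
  refine ⟨i' ∘ₗ i, r ∘ₗ r', fun g x => ?_, fun g y => ?_, fun x => ?_⟩
  · simp only [LinearMap.comp_apply, hi, hi']
  · simp only [LinearMap.comp_apply, hr, hr']
  · simp only [LinearMap.comp_apply, h, h']

lemma Ret.of_iso {X Y : Md k G} (h : Md.Iso X Y) : Ret X Y := by
  obtain ⟨e, he⟩ := h
  refine ⟨e.toLinearMap, e.symm.toLinearMap, he, fun g y => ?_, fun x => ?_⟩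
  · show e.symm _ = X.rep g (e.symm y)
    rw [LinearEquiv.symm_apply_eq, he, LinearEquiv.apply_symm_apply]
  · exact e.symm_apply_apply x

lemma Ret.of_iso' {X Y : Md k G} (h : Md.Iso X Y) : Ret Y X := Ret.of_iso h.symm

lemma Ret.prod_left (X Y : Md k G) : Ret X (X.prod Y) :=
  ⟨LinearMap.inl k _ _, LinearMap.fst k _ _, fun g x => by
    show (X.rep g x, (0 : Y.carrier)) = (X.rep g x, Y.rep g 0)
    rw [map_zero], fun _ _ => rfl, fun _ => rfl⟩

lemma Ret.prod_right (X Y : Md k G) : Ret Y (X.prod Y) :=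
  ⟨LinearMap.inr k _ _, LinearMap.snd k _ _, fun g x => by
    show ((0 : X.carrier), Y.rep g x) = (X.rep g 0, Y.rep g x)
    rw [map_zero], fun _ _ => rfl, fun _ => rfl⟩

lemma Ret.prod {X Y X' Y' : Md k G} (h : Ret X X') (h' : Ret Y Y') :
    Ret (X.prod Y) (X'.prod Y') := by
  obtain ⟨i, r, hi, hr, h⟩ := h
  obtain ⟨i', r', hi', hr', h'⟩ := h'
  refine ⟨i.prodMap i', r.prodMap r', fun g x => ?_, fun g y => ?_, fun x => ?_⟩
  · exact Prod.ext (hi g x.1) (hi' g x.2)
  · exact Prod.ext (hr g y.1) (hr' g y.2)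
  · exact Prod.ext (h x.1) (h' x.2)

lemma equiv_tensor {X Y X' Y' : Md k G} (i : X.carrier →ₗ[k] X'.carrier)
    (i' : Y.carrier →ₗ[k] Y'.carrier)
    (hi : ∀ (g : G) (x : X.carrier), i (X.rep g x) = X'.rep g (i x))
    (hi' : ∀ (g : G) (x : Y.carrier), i' (Y.rep g x) = Y'.rep g (i' x)) (g : G)
    (z : X.carrier ⊗[k] Y.carrier) :
    TensorProduct.map i i' ((X.tensor Y).rep g z) =
      (X'.tensor Y').rep g (TensorProduct.map i i' z) := by
  induction z using TensorProduct.induction_on with
  | zero => simp only [map_zero]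
  | tmul x y =>
    rw [Md.tensor_rep, TensorProduct.map_tmul, TensorProduct.map_tmul, Md.tensor_rep, hi, hi']
  | add a b ha hb => simp only [map_add, ha, hb]

lemma Ret.tensor {X Y X' Y' : Md k G} (h : Ret X X') (h' : Ret Y Y') :
    Ret (X.tensor Y) (X'.tensor Y') := by
  obtain ⟨i, r, hi, hr, h⟩ := h
  obtain ⟨i', r', hi', hr', h'⟩ := h'
  refine ⟨TensorProduct.map i i', TensorProduct.map r r', equiv_tensor i i' hi hi',
    equiv_tensor r r' hr hr', fun x => ?_⟩
  rw [← LinearMap.comp_apply, ← TensorProduct.map_comp]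
  have h1 : r ∘ₗ i = LinearMap.id := LinearMap.ext h
  have h2 : r' ∘ₗ i' = LinearMap.id := LinearMap.ext h'
  rw [h1, h2, TensorProduct.map_id]
  rfl

/-- commutativity of the tensor product -/
lemma iso_comm (X Y : Md k G) : Md.Iso (X.tensor Y) (Y.tensor X) := by
  refine ⟨TensorProduct.comm k _ _, fun g z => ?_⟩
  induction z using TensorProduct.induction_on with
  | zero => simp only [map_zero]
  | tmul x y => rfl
  | add a b ha hb => simp only [map_add, ha, hb]

lemma iso_assoc (X Y Z : Md k G) :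
    Md.Iso ((X.tensor Y).tensor Z) (X.tensor (Y.tensor Z)) := by
  refine ⟨TensorProduct.assoc k _ _ _, fun g z => ?_⟩
  induction z using TensorProduct.induction_on with
  | zero => simp only [map_zero]
  | tmul x y =>
    induction x using TensorProduct.induction_on with
    | zero => simp only [TensorProduct.zero_tmul, map_zero]
    | tmul x x' => rfl
    | add a b ha hb => simp only [TensorProduct.add_tmul, map_add, ha, hb]
  | add a b ha hb => simp only [map_add, ha, hb]

lemma iso_triv (X : Md k G) : Md.Iso ((Md.triv k G).tensor X) X := by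
  refine ⟨TensorProduct.lid k _, fun g z => ?_⟩
  induction z using TensorProduct.induction_on with
  | zero => simp only [map_zero]
  | tmul x y =>
    rw [Md.tensor_rep, TensorProduct.lid_tmul, TensorProduct.lid_tmul, map_smul]
    rfl
  | add a b ha hb => simp only [map_add, ha, hb]

lemma iso_prod_tensor (X Y Z : Md k G) :
    Md.Iso ((X.prod Y).tensor Z) ((X.tensor Z).prod (Y.tensor Z)) := by
  refine ⟨TensorProduct.prodLeft k k X.carrier Y.carrier Z.carrier, fun g z => ?_⟩
  induction z using TensorProduct.induction_on with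
  | zero => simp only [map_zero]
  | tmul x y =>
    rcases x with ⟨x, x'⟩
    rfl
  | add a b ha hb => simp only [map_add, ha, hb]

/-- membership in the additive class generated by `S` -/
def Add (S : Md k G → Prop) (X : Md k G) : Prop :=
  ∃ l : List (Md k G), (∀ W ∈ l, S W) ∧ Ret X (Md.sum l)

lemma ret_zero (X : Md k G) (h : X.dim = 0) : Ret X (Md.zero k G) := by
  have hs : Subsingleton X.carrier := Module.finrank_zero_iff.1 h
  exact ⟨0, 0, fun _ _ => rfl, fun _ _ => hs.elim _ _, fun _ => hs.elim _ _⟩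

lemma iso_sum_append (l l' : List (Md k G)) :
    Md.Iso (Md.sum (l ++ l')) ((Md.sum l).prod (Md.sum l')) := by
  induction l with
  | nil =>
    refine ⟨⟨⟨⟨fun x => (PUnit.unit, x), fun _ _ => rfl⟩, fun _ _ => rfl⟩, fun x => x.2,
      fun _ => rfl, fun _ => rfl⟩, fun _ _ => rfl⟩
  | cons X l ih =>
    obtain ⟨e, he⟩ := ih
    refine ⟨(LinearEquiv.prodCongr (LinearEquiv.refl k X.carrier) e).trans
      (LinearEquiv.prodAssoc k X.carrier (Md.sum l).carrier (Md.sum l').carrier).symm,
      fun g x => ?_⟩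
    rcases x with ⟨x, y⟩
    have h := he g y
    show ((X.rep g x, (e ((Md.sum (l ++ l')).rep g y)).1),
        (e ((Md.sum (l ++ l')).rep g y)).2) = _
    rw [h]
    rfl

lemma Add.of_ret {S : Md k G → Prop} {X Y : Md k G} (h : Ret X Y) (hY : Add S Y) : Add S X := by
  obtain ⟨l, hl, h'⟩ := hY
  exact ⟨l, hl, h.trans h'⟩

lemma Add.of_iso {S : Md k G → Prop} {X Y : Md k G} (h : Md.Iso X Y) (hY : Add S Y) : Add S X :=
  Add.of_ret (Ret.of_iso h) hY

lemma Add.of_mem {S : Md k G → Prop} {X : Md k G} (h : S X) : Add S X :=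
  ⟨[X], fun W hW => by rw [List.mem_singleton] at hW; rw [hW]; exact h, Ret.prod_left X _⟩

lemma Add.of_ret_mem {S : Md k G → Prop} {X Y : Md k G} (h : Ret X Y) (hY : S Y) : Add S X :=
  Add.of_ret h (Add.of_mem hY)

lemma Add.mono {S T : Md k G → Prop} (hST : ∀ W, S W → T W) {X : Md k G} (h : Add S X) :
    Add T X := by
  obtain ⟨l, hl, h'⟩ := h
  exact ⟨l, fun W hW => hST W (hl W hW), h'⟩

lemma Add.zero (S : Md k G → Prop) : Add S (Md.zero k G) :=
  ⟨[], fun W hW => by simp at hW, Ret.refl _⟩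

lemma Add.prod {S : Md k G → Prop} {X Y : Md k G} (h : Add S X) (h' : Add S Y) :
    Add S (X.prod Y) := by
  obtain ⟨l, hl, hX⟩ := h
  obtain ⟨l', hl', hY⟩ := h'
  refine ⟨l ++ l', fun W hW => ?_, (hX.prod hY).trans (Ret.of_iso' (iso_sum_append l l'))⟩
  rcases List.mem_append.1 hW with h | h
  · exact hl W h
  · exact hl' W h

lemma Add.sum {S : Md k G → Prop} : ∀ l : List (Md k G), (∀ W ∈ l, Add S W) → Add S (Md.sum l)
  | [], _ => Add.zero S
  | X :: l, h => Add.prod (h X List.mem_cons_self)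
      (Add.sum l fun W hW => h W (List.mem_cons_of_mem _ hW))

lemma Add.bind {S T : Md k G → Prop} {X : Md k G} (h : Add S X) (hST : ∀ W, S W → Add T W) :
    Add T X := by
  obtain ⟨l, hl, h'⟩ := h
  exact Add.of_ret h' (Add.sum l fun W hW => hST W (hl W hW))

lemma Add.tensor_right {S T : Md k G → Prop} {X Y : Md k G} (h : Add S X)
    (hST : ∀ W, S W → Add T (W.tensor Y)) : Add T (X.tensor Y) := by
  obtain ⟨l, hl, h'⟩ := h
  refine Add.of_ret (h'.tensor (Ret.refl Y)) ?_
  clear h'
  induction l with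
  | nil =>
    refine Add.of_ret (ret_zero _ ?_) (Add.zero T)
    rw [Md.dim_tensor]
    show (Md.zero k G).dim * _ = 0
    rw [Md.dim_zero, zero_mul]
  | cons W l ih =>
    refine Add.of_iso (iso_prod_tensor W (Md.sum l) Y) (Add.prod (hST W (hl W List.mem_cons_self))
      (ih fun V hV => hl V (List.mem_cons_of_mem _ hV)))

lemma Add.tensor {S T U : Md k G → Prop} {X Y : Md k G} (h : Add S X) (h' : Add T Y)
    (hST : ∀ W W', S W → T W' → Add U (W.tensor W')) : Add U (X.tensor Y) := by
  refine Add.tensor_right h fun W hW => ?_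
  refine Add.of_iso (iso_comm W Y) (Add.tensor_right h' fun W' hW' => ?_)
  exact Add.of_iso (iso_comm W' W) (hST W W' hW hW')

end Pool.Agent.H84BD
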