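import Pool.Agent.Helper84.BD.Maps

/-!
The tensor product of forms with the natural module, when the degree is not divisible by `p`.
-/

universe u v w

open scoped TensorProduct

namespace Pool.Agent.H84BD

open Pool.Agent.H80Green MvPolynomial

variable {k : Type u} [Field k] {G : Type v} [Group G]

lemma euler (n : ℕ) (f : Hm k (n + 1)) :
    xL k 0 n (pdL k 0 n f) + xL k 1 n (pdL k 1 n f) = ((n : k) + 1) • f := by
  apply Subtype.ext
  have h := ((mem_homogeneousSubmodule _ _).1 f.2).sum_X_mul_pderiv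
  rw [Fin.sum_univ_two] at h
  simp only [Submodule.coe_add, Submodule.coe_smul, xL_coe, pdL_coe, h]
  rw [← Nat.cast_smul_eq_nsmul k]
  push_cast
  rfl

lemma pd_mul_same (i : Fin 2) (n : ℕ) (f : Hm k (n + 1)) :
    pdL k i (n + 1) (mulL k (n + 1) 1 (n + 2) rfl f (xv k i)) = xL k i n (pdL k i n f) + f := by
  apply Subtype.ext
  rw [pdL_coe, mulL_coe, Derivation.leibniz]
  simp only [Submodule.coe_add, xL_coe, pdL_coe, xv, pderiv_X_self, smul_eq_mul]
  ring

lemma pd_mul_ne (i j : Fin 2) (hij : j ≠ i) (n : ℕ) (f : Hm k (n + 1)) :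
    pdL k i (n + 1) (mulL k (n + 1) 1 (n + 2) rfl f (xv k j)) = xL k j n (pdL k i n f) := by
  apply Subtype.ext
  rw [pdL_coe, mulL_coe, Derivation.leibniz]
  simp only [xL_coe, pdL_coe, xv, pderiv_X_of_ne hij, smul_eq_mul]
  ring

lemma pd_const (i : Fin 2) (f : Hm k 0) : pderiv i f.1 = 0 := by
  have h := (mem_homogeneousSubmodule _ _).1 f.2
  rw [← totalDegree_zero_iff_isHomogeneous, totalDegree_eq_zero_iff_eq_C] at h
  rw [h, pderiv_C]

lemma pd_mul0_same (i : Fin 2) (f : Hm k 0) :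
    pdL k i 0 (mulL k 0 1 1 rfl f (xv k i)) = f := by
  apply Subtype.ext
  rw [pdL_coe, mulL_coe, Derivation.leibniz, pd_const]
  simp only [xv, pderiv_X_self, smul_eq_mul]
  ring

lemma pd_mul0_ne (i j : Fin 2) (hij : j ≠ i) (f : Hm k 0) :
    pdL k i 0 (mulL k 0 1 1 rfl f (xv k j)) = 0 := by
  apply Subtype.ext
  rw [pdL_coe, mulL_coe, Derivation.leibniz, pd_const]
  simp only [xv, pderiv_X_of_ne hij, smul_eq_mul]
  simp

lemma jac_x0 (n : ℕ) (f : Hm k (n + 1)) : jacL k n f (xv k 0) = -pdL k 1 n f := by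
  apply Subtype.ext
  rw [jacL_coe]
  simp [xv, pdL_coe, pderiv_X_self, pderiv_X_of_ne]

lemma jac_x1 (n : ℕ) (f : Hm k (n + 1)) : jacL k n f (xv k 1) = pdL k 0 n f := by
  apply Subtype.ext
  rw [jacL_coe]
  simp [xv, pdL_coe, pderiv_X_self, pderiv_X_of_ne]

lemma bas_one_zero : bas k 1 0 = xv k 0 := by
  apply Subtype.ext
  rw [bas_apply]
  exact mo_X0

lemma bas_one_one : bas k 1 1 = xv k 1 := by
  apply Subtype.ext
  rw [bas_apply]
  exact mo_X1

/-- induction on the second factor -/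
lemma hm1_ext {M N : Type*} [AddCommMonoid M] [Module k M] [AddCommMonoid N] [Module k N]
    {F F' : M ⊗[k] Hm k 1 →ₗ[k] N} (h0 : ∀ f : M, F (f ⊗ₜ xv k 0) = F' (f ⊗ₜ xv k 0))
    (h1 : ∀ f : M, F (f ⊗ₜ xv k 1) = F' (f ⊗ₜ xv k 1)) : F = F' := by
  apply TensorProduct.ext
  apply LinearMap.ext
  intro f
  apply (bas k 1).ext
  intro i
  fin_cases i
  · show F (f ⊗ₜ bas k 1 0) = F' (f ⊗ₜ bas k 1 0)
    rw [bas_one_zero, h0]
  · show F (f ⊗ₜ bas k 1 1) = F' (f ⊗ₜ bas k 1 1)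
    rw [bas_one_one, h1]

lemma mul_del (n : ℕ) (f : Hm k (n + 1)) :
    TensorProduct.lift (mulL k n 1 (n + 1) rfl) (delL k n f) = ((n : k) + 1) • f := by
  rw [← euler, delL_apply, map_add, TensorProduct.lift.tmul, TensorProduct.lift.tmul]
  congr 1 <;>
  · apply Subtype.ext
    rw [mulL_coe, xL_coe, mul_comm]
    rfl

/-- the key identity -/
lemma key (n : ℕ) :
    delL k (n + 1) ∘ₗ TensorProduct.lift (mulL k (n + 1) 1 (n + 2) rfl) +
      iotL k n ∘ₗ TensorProduct.lift (jacL k n) =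
      ((n : k) + 2) • (LinearMap.id : Hm k (n + 1) ⊗[k] Hm k 1 →ₗ[k] Hm k (n + 1) ⊗[k] Hm k 1) := by
  apply hm1_ext
  · intro f
    simp only [LinearMap.add_apply, LinearMap.comp_apply, TensorProduct.lift.tmul,
      LinearMap.smul_apply, LinearMap.id_apply]
    rw [delL_apply, iotL_apply, jac_x0, pd_mul_same, pd_mul_ne 1 0 (by decide)]
    have h := euler n f
    rw [map_neg, map_neg, TensorProduct.neg_tmul, TensorProduct.neg_tmul,
      TensorProduct.tmul_neg, TensorProduct.add_tmul]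
    have h2 : ((n : k) + 2) • f ⊗ₜ[k] xv k 0 =
        (xL k 0 n (pdL k 0 n f) + xL k 1 n (pdL k 1 n f)) ⊗ₜ xv k 0 + f ⊗ₜ xv k 0 := by
      rw [h, ← TensorProduct.smul_tmul', show ((n : k) + 2) = ((n : k) + 1) + 1 by ring,
        add_smul, one_smul]
    rw [h2, TensorProduct.add_tmul]
    abel
  · intro f
    simp only [LinearMap.add_apply, LinearMap.comp_apply, TensorProduct.lift.tmul,
      LinearMap.smul_apply, LinearMap.id_apply]
    rw [delL_apply, iotL_apply, jac_x1, pd_mul_same, pd_mul_ne 0 1 (by decide)]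
    have h := euler n f
    rw [TensorProduct.tmul_neg, TensorProduct.add_tmul]
    have h2 : ((n : k) + 2) • f ⊗ₜ[k] xv k 1 =
        (xL k 0 n (pdL k 0 n f) + xL k 1 n (pdL k 1 n f)) ⊗ₜ xv k 1 + f ⊗ₜ xv k 1 := by
      rw [h, ← TensorProduct.smul_tmul', show ((n : k) + 2) = ((n : k) + 1) + 1 by ring,
        add_smul, one_smul]
    rw [h2, TensorProduct.add_tmul]
    abel

lemma key0 : delL k 0 ∘ₗ TensorProduct.lift (mulL k 0 1 1 rfl) =
    (LinearMap.id : Hm k 0 ⊗[k] Hm k 1 →ₗ[k] Hm k 0 ⊗[k] Hm k 1) := by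
  apply hm1_ext
  · intro f
    simp only [LinearMap.comp_apply, TensorProduct.lift.tmul, LinearMap.id_apply]
    rw [delL_apply, pd_mul0_same, pd_mul0_ne 1 0 (by decide), TensorProduct.zero_tmul, add_zero]
  · intro f
    simp only [LinearMap.comp_apply, TensorProduct.lift.tmul, LinearMap.id_apply]
    rw [delL_apply, pd_mul0_same, pd_mul0_ne 0 1 (by decide), TensorProduct.zero_tmul, zero_add]

variable (ρ : G →* Matrix (Fin 2) (Fin 2) k)

lemma Eqv.smul {X Y : Md k G} {f : X.carrier →ₗ[k] Y.carrier} (h : Eqv X Y f) (a : k) :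
    Eqv X Y (a • f) := fun g x => by
  rw [LinearMap.smul_apply, LinearMap.smul_apply, h, map_smul]

/-- forms of degree `n + 1` are a retract of forms of degree `n` times linear forms -/
lemma ret_succ (n c : ℕ) (hn : ((n : k) + 1) ≠ 0) :
    Ret (Sy ρ (n + 1) c) ((Sy ρ n c).tensor (Sy ρ 1 0)) := by
  refine ⟨delL k n, ((n : k) + 1)⁻¹ • TensorProduct.lift (mulL k n 1 (n + 1) rfl),
    delL_eqv ρ n c, (mulL_eqv ρ n 1 (n + 1) rfl c 0 c rfl).smul _, fun f => ?_⟩
  rw [LinearMap.smul_apply, mul_del, smul_smul, inv_mul_cancel₀ hn, one_smul]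

lemma ret_tensor (n c : ℕ) (hn : ((n : k) + 2) ≠ 0) :
    Ret ((Sy ρ (n + 1) c).tensor (Sy ρ 1 0)) ((Sy ρ (n + 2) c).prod (Sy ρ n (c + 1))) := by
  refine ⟨(TensorProduct.lift (mulL k (n + 1) 1 (n + 2) rfl)).prod
      (TensorProduct.lift (jacL k n)),
    ((n : k) + 2)⁻¹ • (delL k (n + 1)).coprod (iotL k n), fun g x => ?_, fun g y => ?_,
    fun x => ?_⟩
  · exact Prod.ext (mulL_eqv ρ (n + 1) 1 (n + 2) rfl c 0 c rfl g x) (jacL_eqv ρ n c g x)
  · rcases y with ⟨y, z⟩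
    show ((n : k) + 2)⁻¹ • (delL k (n + 1) ((Sy ρ (n + 2) c).rep g y) +
      iotL k n ((Sy ρ n (c + 1)).rep g z)) = ((Sy ρ (n + 1) c).tensor (Sy ρ 1 0)).rep g
        (((n : k) + 2)⁻¹ • (delL k (n + 1) y + iotL k n z))
    rw [delL_eqv ρ (n + 1) c g y, iotL_eqv ρ n c g z, map_smul, map_add]
  · have h := LinearMap.congr_fun (key (k := k) n) x
    show ((n : k) + 2)⁻¹ • (delL k (n + 1) (TensorProduct.lift (mulL k (n + 1) 1 (n + 2) rfl) x) +
      iotL k n (TensorProduct.lift (jacL k n) x)) = x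
    have h2 : delL k (n + 1) (TensorProduct.lift (mulL k (n + 1) 1 (n + 2) rfl) x) +
      iotL k n (TensorProduct.lift (jacL k n) x) = ((n : k) + 2) • x := h
    rw [h2, smul_smul, inv_mul_cancel₀ hn, one_smul]

lemma ret_tensor0 (c : ℕ) : Ret ((Sy ρ 0 c).tensor (Sy ρ 1 0)) (Sy ρ 1 c) :=
  ⟨TensorProduct.lift (mulL k 0 1 1 rfl), delL k 0, mulL_eqv ρ 0 1 1 rfl c 0 c rfl,
    delL_eqv ρ 0 c, fun x => LinearMap.congr_fun (key0 (k := k)) x⟩

end Pool.Agent.H84BD
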