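import Pool.Agent.Helper84.BD.Phi2

/-!
`(St ⊗ St) ⊗ V` and the forms of degree `2p-1` as a product with the Frobenius twist.
-/

universe u v w

open scoped TensorProduct

namespace Pool.Agent.H84BD

open Pool.Agent.H80Green MvPolynomial

variable {k : Type u} [Field k] {G : Type v} [Group G]

lemma eqv_id (X : Md k G) : Eqv X X LinearMap.id := fun _ _ => rfl

lemma eqv_comm (X Y : Md k G) :
    Eqv (X.tensor Y) (Y.tensor X) (TensorProduct.comm k _ _).toLinearMap := by
  intro g z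
  induction z using TensorProduct.induction_on with
  | zero => simp only [map_zero]
  | tmul x y => rfl
  | add a b ha hb => simp only [map_add, ha, hb]

lemma eqv_assoc (X Y Z : Md k G) :
    Eqv ((X.tensor Y).tensor Z) (X.tensor (Y.tensor Z))
      (TensorProduct.assoc k _ _ _).toLinearMap := by
  intro g z
  induction z using TensorProduct.induction_on with
  | zero => simp only [map_zero]
  | tmul x y =>
    induction x using TensorProduct.induction_on with
    | zero => simp only [TensorProduct.zero_tmul, map_zero]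
    | tmul x x' => rfl
    | add a b ha hb => simp only [TensorProduct.add_tmul, map_add, ha, hb]
  | add a b ha hb => simp only [map_add, ha, hb]

lemma Eqv.prod {X Y Z : Md k G} {f : X.carrier →ₗ[k] Y.carrier} {f' : X.carrier →ₗ[k] Z.carrier}
    (h : Eqv X Y f) (h' : Eqv X Z f') : Eqv X (Y.prod Z) (f.prod f') := fun g x =>
  Prod.ext (h g x) (h' g x)

/-- an injective equivariant map between modules of the same dimension -/
lemma iso_of_inj {X Y : Md k G} (f : X.carrier →ₗ[k] Y.carrier) (hf : Eqv X Y f)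
    (hi : ∀ x, f x = 0 → x = 0) (hd : X.dim = Y.dim) : Md.Iso X Y := by
  have hinj : Function.Injective f := (injective_iff_map_eq_zero f).2 hi
  have hsurj : Function.Surjective f :=
    (LinearMap.injective_iff_surjective_of_finrank_eq_finrank hd).1 hinj
  exact ⟨LinearEquiv.ofBijective f ⟨hinj, hsurj⟩, hf⟩

variable (ρ : G →* Matrix (Fin 2) (Fin 2) k)

lemma iso_phi (m : ℕ) (h0 : (m : k) + 2 = 0) (h1 : ∀ t ≤ m, ((t : k) + 1) ≠ 0) :
    Md.Iso (((Sy ρ (m + 1) 0).tensor (Sy ρ (m + 1) 0)).tensor (Sy ρ 1 0))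
      ((Sy ρ (m + 1 + (m + 1) + 1) 0).prod (((Sy ρ (m + 1) 0).tensor (Sy ρ m 1)).prod
        ((Sy ρ (m + 1) 0).tensor (Sy ρ m 1)))) := by
  have e1 : Eqv (((Sy ρ (m + 1) 0).tensor (Sy ρ (m + 1) 0)).tensor (Sy ρ 1 0))
      (Sy ρ (m + 1 + (m + 1) + 1) 0) (ph1 k (m + 1)) :=
    (mulL_eqv ρ _ _ _ rfl 0 0 0 rfl).comp
      (Eqv.tensor (mulL_eqv ρ (m + 1) (m + 1) (m + 1 + (m + 1)) rfl 0 0 0 rfl)
        (eqv_id (Sy ρ 1 0)))
  have e2 : Eqv (((Sy ρ (m + 1) 0).tensor (Sy ρ (m + 1) 0)).tensor (Sy ρ 1 0))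
      ((Sy ρ (m + 1) 0).tensor (Sy ρ m 1)) (ph2 k m) :=
    Eqv.comp (Eqv.tensor (eqv_id (Sy ρ (m + 1) 0)) (jacL_eqv ρ m 0)) (eqv_assoc _ _ _)
  have e3 : Eqv (((Sy ρ (m + 1) 0).tensor (Sy ρ (m + 1) 0)).tensor (Sy ρ 1 0))
      (((Sy ρ (m + 1) 0).tensor (Sy ρ (m + 1) 0)).tensor (Sy ρ 1 0)) (sw k (m + 1)) :=
    Eqv.tensor (eqv_comm _ _) (eqv_id (Sy ρ 1 0))
  refine iso_of_inj ((ph1 k (m + 1)).prod ((ph2 k m).prod (ph2 k m ∘ₗ sw k (m + 1))))
    (e1.prod (e2.prod (e2.comp e3))) ?_ ?_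
  · intro z hz
    exact phi_inj m h0 h1 z (congrArg Prod.fst hz) (congrArg (fun y => y.2.1) hz)
      (congrArg (fun y => y.2.2) hz)
  · rw [Md.dim_tensor, Md.dim_tensor, Md.dim_prod, Md.dim_prod, Md.dim_tensor]
    simp only [dim_Sy]
    ring

/-- the Frobenius twist of a matrix representation -/
noncomputable def fro (p : ℕ) [Fact p.Prime] [CharP k p] (ρ : G →* Matrix (Fin 2) (Fin 2) k) :
    G →* Matrix (Fin 2) (Fin 2) k :=
  ((frobenius k p).mapMatrix : Matrix (Fin 2) (Fin 2) k →+* _).toMonoidHom.comp ρ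

lemma fro_apply (p : ℕ) [Fact p.Prime] [CharP k p] (g : G) (i j : Fin 2) :
    fro p ρ g i j = (ρ g i j) ^ p := rfl

/-- the linear map from linear forms to forms of degree `p` -/
noncomputable def frL (k : Type u) [Field k] (p : ℕ) : Hm k 1 →ₗ[k] Hm k p :=
  (ka k 1 0).smulRight (⟨X 0 ^ p, by simpa using (isHomogeneous_X k (0 : Fin 2)).pow p⟩ : Hm k p) +
    (ka k 1 1).smulRight (⟨X 1 ^ p, by simpa using (isHomogeneous_X k (1 : Fin 2)).pow p⟩ : Hm k p)

lemma frL_coe (p : ℕ) (v : Hm k 1) : (frL k p v : MvPolynomial (Fin 2) k) =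
    ka k 1 0 v • X 0 ^ p + ka k 1 1 v • X 1 ^ p := rfl

lemma frL_act (p : ℕ) [Fact p.Prime] [CharP k p] (g : G) (v : Hm k 1) :
    frL k p (actH (fro p ρ g) 1 v) = actH (ρ g) p (frL k p v) := by
  have h : frL k p ∘ₗ actH (fro p ρ g) 1 = actH (ρ g) p ∘ₗ frL k p := by
    apply (bas k 1).ext
    intro j
    have key : ∀ j : Fin 2, frL k p (actH (fro p ρ g) 1 (xv k j)) =
        actH (ρ g) p (frL k p (xv k j)) := by
      intro j
      have h1 : (frL k p (xv k j) : MvPolynomial (Fin 2) k) = X j ^ p := by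
        rw [frL_coe]
        fin_cases j
        · show ka k 1 0 (xv k 0) • X 0 ^ p + ka k 1 1 (xv k 0) • X 1 ^ p = X 0 ^ p
          rw [ka_xv00, ka_xv10, one_smul, zero_smul, add_zero]
        · show ka k 1 0 (xv k 1) • X 0 ^ p + ka k 1 1 (xv k 1) • X 1 ^ p = X 1 ^ p
          rw [ka_xv01, ka_xv11, one_smul, zero_smul, zero_add]
      have h2 : ∀ a b : k, (frL k p (a • xv k 0 + b • xv k 1) : MvPolynomial (Fin 2) k) =
          a • X 0 ^ p + b • X 1 ^ p := by
        intro a b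
        rw [frL_coe]
        simp only [map_add, map_smul, ka_xv00, ka_xv01, ka_xv10, ka_xv11, smul_eq_mul, mul_one,
          mul_zero, add_zero, zero_add]
      apply Subtype.ext
      rw [actH_xv, h2, actH_coe, h1, map_pow, act_X, Fin.sum_univ_two, add_pow_char, mul_pow,
        mul_pow, fro_apply, fro_apply, smul_eq_C_mul, smul_eq_C_mul, map_pow, map_pow]
    fin_cases j
    · show frL k p (actH (fro p ρ g) 1 (bas k 1 0)) = actH (ρ g) p (frL k p (bas k 1 0))
      rw [bas_one_zero]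
      exact key 0
    · show frL k p (actH (fro p ρ g) 1 (bas k 1 1)) = actH (ρ g) p (frL k p (bas k 1 1))
      rw [bas_one_one]
      exact key 1
  exact LinearMap.congr_fun h v

/-- product with the Frobenius twist -/
noncomputable def omL (k : Type u) [Field k] (n p : ℕ) :
    Hm k n ⊗[k] Hm k 1 →ₗ[k] Hm k (n + p) :=
  TensorProduct.lift (mulL k n p (n + p) rfl) ∘ₗ TensorProduct.map LinearMap.id (frL k p)

lemma omL_tmul (n p : ℕ) (f : Hm k n) (v : Hm k 1) :
    (omL k n p (f ⊗ₜ v) : MvPolynomial (Fin 2) k) = f.1 * (frL k p v).1 := rfl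

lemma omL_eqv (n p : ℕ) [Fact p.Prime] [CharP k p] :
    Eqv ((Sy ρ n 0).tensor (Sy (fro p ρ) 1 0)) (Sy ρ (n + p) 0) (omL k n p) := by
  refine (mulL_eqv ρ n p (n + p) rfl 0 0 0 rfl).comp
    (Eqv.tensor (eqv_id (Sy ρ n 0)) (f' := frL k p) (Y := Sy (fro p ρ) 1 0) (Y' := Sy ρ p 0) ?_)
  intro g v
  show frL k p ((fro p ρ g).det ^ 0 • actH (fro p ρ g) 1 v) =
    (ρ g).det ^ 0 • actH (ρ g) p (frL k p v)
  rw [pow_zero, pow_zero, one_smul, one_smul]
  exact frL_act ρ p g v

lemma omL_inj (n p : ℕ) (hnp : n < p) (z : Hm k n ⊗[k] Hm k 1) (hz : omL k n p z = 0) :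
    z = 0 := by
  -- coefficients
  have hc : ∀ s, (Polynomial.lcoeff k s) ∘ₗ (deh k).toLinearMap ∘ₗ (Hm k (n + p)).subtype ∘ₗ
      omL k n p = tf (ka k n s) (ka k 1 0) + if p ≤ s then tf (ka k n (s - p)) (ka k 1 1) else 0 := by
    intro s
    apply TensorProduct.ext'
    intro f v
    show (deh k (omL k n p (f ⊗ₜ v)).1).coeff s = _
    rw [omL_tmul, frL_coe, map_mul, map_add, map_smul, map_smul, map_pow, map_pow, deh_X0, deh_X1,
      one_pow, mul_add, Polynomial.coeff_add, mul_smul_comm, mul_smul_comm,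
      Polynomial.coeff_smul, Polynomial.coeff_smul, mul_one, Polynomial.coeff_mul_X_pow',
      LinearMap.add_apply, tf_tmul, deh_coeff]
    split_ifs with h
    · rw [tf_tmul, deh_coeff, smul_eq_mul, smul_eq_mul]
      ring
    · rw [smul_zero, LinearMap.zero_apply, smul_eq_mul]
      ring
  have hc' : ∀ s, (tf (ka k n s) (ka k 1 0) + if p ≤ s then tf (ka k n (s - p)) (ka k 1 1) else 0) z
      = 0 := by
    intro s
    rw [← LinearMap.congr_fun (hc s) z]
    simp only [LinearMap.comp_apply, hz, map_zero]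
  refine tf_eq_zero (M := Hm k n) (bas k n) (bas k 1) z ?_
  intro i l
  fin_cases l
  · have h := hc' i
    rw [if_neg (by omega), add_zero] at h
    exact h
  · have h := hc' (i + p)
    rw [if_pos (by omega), LinearMap.add_apply, Nat.add_sub_cancel] at h
    have h2 : tf (ka k n (i + p)) (ka k 1 0) z = 0 := by
      have h3 : tf (ka k n (i + p)) (ka k 1 0) = 0 := by
        apply TensorProduct.ext'
        intro f v
        rw [tf_tmul, ka_big n _ (by omega), zero_mul]
        rfl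
      rw [h3, LinearMap.zero_apply]
    rw [h2, zero_add] at h
    exact h

lemma iso_om (m p : ℕ) [Fact p.Prime] [CharP k p] (hp : p = m + 2) :
    Md.Iso ((Sy ρ (m + 1) 0).tensor (Sy (fro p ρ) 1 0)) (Sy ρ (m + 1 + p) 0) := by
  refine iso_of_inj (omL k (m + 1) p) (omL_eqv ρ (m + 1) p) (omL_inj (m + 1) p (by omega)) ?_
  rw [Md.dim_tensor]
  simp only [dim_Sy]
  omega

end Pool.Agent.H84BD
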