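import Pool.Agent.Helper84.BD.Cls

/-!
The tensor power of order `2p-1` of a module of dimension two.
-/

universe u v w

open scoped TensorProduct

namespace Pool.Agent.H84BD

open Pool.Agent.H80Green MvPolynomial

variable {k : Type u} [Field k] {G : Type v} [Group G]

lemma cast_ne (p m : ℕ) [CharP k p] (hpm : p = m + 2) (t : ℕ) (ht : t ≤ m) :
    ((t : k) + 1) ≠ 0 := by
  have h : ((t + 1 : ℕ) : k) ≠ 0 := by
    rw [Ne, CharP.cast_eq_zero_iff k p]
    intro h
    have := Nat.le_of_dvd (by omega) h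
    omega
  rwa [Nat.cast_add, Nat.cast_one] at h

lemma cast_eq (p m : ℕ) [CharP k p] (hpm : p = m + 2) : (m : k) + 2 = 0 := by
  have h : ((m + 2 : ℕ) : k) = 0 := by
    rw [← hpm]
    exact CharP.cast_eq_zero k p
  rwa [Nat.cast_add, Nat.cast_ofNat] at h

lemma cl_Sy (ρ : G →* Matrix (Fin 2) (Fin 2) k) (S : List (Md k G)) (hV : Cl S 1 (Sy ρ 1 0))
    (m : ℕ) (h1 : ∀ t ≤ m, ((t : k) + 1) ≠ 0) :
    ∀ n c, n ≤ m + 1 → Cl S n (Sy ρ n c) := by
  intro n
  induction n with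
  | zero =>
    intro c _
    refine Cl.one _ ?_
    rw [dim_Sy]
  | succ n ih =>
    intro c hn
    exact Cl.ret _ _ _ (ret_succ ρ n c (h1 n (by omega))) (Cl.tensor _ _ _ _ (ih c (by omega)) hV)

/-- summands of low tensor powers -/
def Lo (ρ : G →* Matrix (Fin 2) (Fin 2) k) (S : List (Md k G)) (n : ℕ) (W : Md k G) : Prop :=
  W = Sy ρ n 0 ∨ ∃ r, r + 2 ≤ n ∧ Cl S r W

lemma add_Lo (ρ : G →* Matrix (Fin 2) (Fin 2) k) (S : List (Md k G)) (hV : Cl S 1 (Sy ρ 1 0))
    (m : ℕ) (h1 : ∀ t ≤ m, ((t : k) + 1) ≠ 0) :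
    ∀ n, n ≤ m → Add (Lo ρ S (n + 1)) ((Sy ρ 1 0).tpow (n + 1)) := by
  intro n
  induction n with
  | zero => exact fun _ => Add.of_iso (iso_tpow_one _) (Add.of_mem (Or.inl rfl))
  | succ n ih =>
    intro hn
    refine Add.tensor_right (ih (by omega)) fun W hW => ?_
    rcases hW with hW | ⟨r, hr, hW⟩
    · rw [hW]
      have h2 : ((n : k) + 2) ≠ 0 := by
        have := h1 (n + 1) hn
        rw [Nat.cast_add, Nat.cast_one] at this
        intro h
        apply this
        rw [← h]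
        ring
      refine Add.of_ret (ret_tensor ρ n 0 h2) (Add.prod (Add.of_mem (Or.inl rfl))
        (Add.of_mem (Or.inr ⟨n, by omega, ?_⟩)))
      exact cl_Sy ρ S hV m h1 n 1 (by omega)
    · exact Add.of_mem (Or.inr ⟨r + 1, by omega, Cl.tensor _ _ _ _ hW hV⟩)

theorem star_Sy (p m : ℕ) [Fact p.Prime] [CharP k p] (hpm : p = m + 2)
    (ρ : G →* Matrix (Fin 2) (Fin 2) k) (S : List (Md k G)) (hV : Cl S 1 (Sy ρ 1 0))
    (hF : Cl S 1 (Sy (fro p ρ) 1 0)) :
    Add (Cl S (2 * m + 2)) ((Sy ρ 1 0).tpow (2 * m + 3)) := by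
  have h1 : ∀ t ≤ m, ((t : k) + 1) ≠ 0 := cast_ne p m hpm
  have h0 : (m : k) + 2 = 0 := cast_eq p m hpm
  have hS : Cl S (m + 1) (Sy ρ (m + 1) 0) := cl_Sy ρ S hV m h1 (m + 1) 0 le_rfl
  have hlo := add_Lo ρ S hV m h1 m le_rfl
  have e : 2 * m + 3 = (m + 1 + (m + 1)) + 1 := by ring
  rw [e]
  have a1 : Add (fun W => ∃ W1 W2, Lo ρ S (m + 1) W1 ∧ Lo ρ S (m + 1) W2 ∧ W = W1.tensor W2)
      ((Sy ρ 1 0).tpow (m + 1 + (m + 1))) :=
    Add.of_iso (iso_tpow_add _ _ _) (Add.tensor hlo hlo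
      fun W W' hW hW' => Add.of_mem ⟨W, W', hW, hW', rfl⟩)
  refine Add.tensor_right a1 ?_
  rintro W ⟨W1, W2, hW1, hW2, rfl⟩
  rcases hW1 with hW1 | ⟨r1, hr1, hW1⟩
  · rcases hW2 with hW2 | ⟨r2, hr2, hW2⟩
    · rw [hW1, hW2]
      refine Add.of_iso (iso_phi ρ m h0 h1) ?_
      have b1 : Cl S (2 * m + 2) ((Sy ρ (m + 1) 0).tensor (Sy ρ m 1)) :=
        Cl.mono _ _ _ (by omega) (Cl.tensor _ _ _ _ hS (cl_Sy ρ S hV m h1 m 1 (by omega)))
      refine Add.prod ?_ (Add.prod (Add.of_mem b1) (Add.of_mem b1))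
      have b2 := iso_om ρ m p hpm
      subst hpm
      exact Add.of_iso b2.symm (Add.of_mem
        (Cl.mono _ _ _ (by omega) (Cl.tensor _ _ _ _ hS hF)))
    · rw [hW1]
      exact Add.of_mem (Cl.mono _ _ _ (by omega)
        (Cl.tensor _ _ _ _ (Cl.tensor _ _ _ _ hS hW2) hV))
  · rcases hW2 with hW2 | ⟨r2, hr2, hW2⟩
    · rw [hW2]
      exact Add.of_mem (Cl.mono _ _ _ (by omega)
        (Cl.tensor _ _ _ _ (Cl.tensor _ _ _ _ hW1 hS) hV))
    · exact Add.of_mem (Cl.mono _ _ _ (by omega)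
        (Cl.tensor _ _ _ _ (Cl.tensor _ _ _ _ hW1 hW2) hV))

/-- the matrices of a module in a basis -/
noncomputable def matR (V : Md k G) (b : Module.Basis (Fin 2) k V.carrier) :
    G →* Matrix (Fin 2) (Fin 2) k where
  toFun g := LinearMap.toMatrix b b (V.rep g)
  map_one' := by rw [map_one]; exact LinearMap.toMatrix_one b
  map_mul' g h := by rw [map_mul]; exact LinearMap.toMatrix_mul b _ _

lemma matR_apply (V : Md k G) (b : Module.Basis (Fin 2) k V.carrier) (g : G) (i j : Fin 2) :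
    matR V b g i j = b.repr (V.rep g (b j)) i := LinearMap.toMatrix_apply b b _ i j

lemma iso_matR (V : Md k G) (b : Module.Basis (Fin 2) k V.carrier) :
    Md.Iso (Sy (matR V b) 1 0) V := by
  let e : Hm k 1 ≃ₗ[k] V.carrier := (bas k 1).equiv b (Equiv.refl _)
  have e0 : e (xv k 0) = b 0 := by
    rw [← bas_one_zero]
    exact Module.Basis.equiv_apply _ _ _ _
  have e1 : e (xv k 1) = b 1 := by
    rw [← bas_one_one]
    exact Module.Basis.equiv_apply _ _ _ _
  refine ⟨e, fun g x => ?_⟩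
  have h : e.toLinearMap ∘ₗ (Sy (matR V b) 1 0).rep g = V.rep g ∘ₗ e.toLinearMap := by
    have key : ∀ j : Fin 2, e ((Sy (matR V b) 1 0).rep g (xv k j)) = V.rep g (b j) := by
      intro j
      have h1 : (Sy (matR V b) 1 0).rep g (xv k j) = actH (matR V b g) 1 (xv k j) := by
        show (matR V b g).det ^ 0 • actH (matR V b g) 1 (xv k j) = _
        rw [pow_zero, one_smul]
      rw [h1, actH_xv, map_add, map_smul, map_smul, e0, e1]
      have h3 := (b.sum_repr (V.rep g (b j))).symm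
      rw [Fin.sum_univ_two] at h3
      rw [matR_apply, matR_apply]
      exact h3.symm
    apply (bas k 1).ext
    intro j
    fin_cases j
    · show e ((Sy (matR V b) 1 0).rep g (bas k 1 0)) = V.rep g (e (bas k 1 0))
      rw [bas_one_zero, key 0, e0]
    · show e ((Sy (matR V b) 1 0).rep g (bas k 1 1)) = V.rep g (e (bas k 1 1))
      rw [bas_one_one, key 1, e1]
  exact LinearMap.congr_fun h x

lemma dim_Sy_one (ρ : G →* Matrix (Fin 2) (Fin 2) k) : (Sy ρ 1 0).dim ≤ 2 := by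
  rw [dim_Sy]

theorem star_one (p m : ℕ) [Fact p.Prime] [CharP k p] (hpm : p = m + 2) (V : Md k G)
    (hV : V.dim ≤ 2) : ∃ S : List (Md k G), V ∈ S ∧ (∀ W ∈ S, W.dim ≤ 2) ∧
      Add (Cl S (2 * m + 2)) (V.tpow (2 * m + 3)) := by
  rcases Nat.lt_or_ge V.dim 2 with h | h
  · refine ⟨[V], List.mem_singleton.2 rfl, fun W hW => ?_, Add.of_mem ?_⟩
    · rw [List.mem_singleton] at hW
      rw [hW]
      exact hV
    · refine Cl.mono 0 _ _ (Nat.zero_le _) (Cl.one _ ?_)
      rw [Md.dim_tpow]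
      exact pow_le_one₀ (Nat.zero_le _) (by omega)
  · have hd : Module.finrank k V.carrier = 2 := le_antisymm hV h
    let b : Module.Basis (Fin 2) k V.carrier := Module.finBasisOfFinrankEq k V.carrier hd
    have hiso := iso_matR V b
    refine ⟨[V, Sy (fro p (matR V b)) 1 0], List.mem_cons_self, fun W hW => ?_, ?_⟩
    · rcases List.mem_cons.1 hW with hW | hW
      · rw [hW]
        exact hV
      · rw [List.mem_singleton] at hW
        rw [hW]
        exact dim_Sy_one _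
    · refine Add.of_iso (iso_tpow hiso.symm _) (star_Sy p m hpm _ _ ?_ ?_)
      · exact Cl.ret _ _ _ (Ret.of_iso hiso) (Cl.mem _ List.mem_cons_self)
      · exact Cl.mem _ (List.mem_cons_of_mem _ (List.mem_singleton.2 rfl))

theorem star_list (p m : ℕ) [Fact p.Prime] [CharP k p] (hpm : p = m + 2) :
    ∀ S : List (Md k G), (∀ V ∈ S, V.dim ≤ 2) → ∃ T : List (Md k G), (∀ V ∈ S, V ∈ T) ∧
      (∀ W ∈ T, W.dim ≤ 2) ∧ ∀ V ∈ S, Add (Cl T (2 * m + 2)) (V.tpow (2 * m + 3))
  | [], _ => ⟨[], fun _ h => h, fun _ h => by simp at h, fun _ h => by simp at h⟩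
  | V :: S, hS => by
    obtain ⟨T, h1, h2, h3⟩ := star_list p m hpm S fun W hW => hS W (List.mem_cons_of_mem _ hW)
    obtain ⟨U, g1, g2, g3⟩ := star_one p m hpm V (hS V List.mem_cons_self)
    refine ⟨U ++ T, fun W hW => ?_, fun W hW => ?_, fun W hW => ?_⟩
    · rcases List.mem_cons.1 hW with hW | hW
      · rw [hW]
        exact List.mem_append_left _ g1
      · exact List.mem_append_right _ (h1 W hW)
    · rcases List.mem_append.1 hW with hW | hW
      · exact g2 W hW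
      · exact h2 W hW
    · rcases List.mem_cons.1 hW with hW | hW
      · rw [hW]
        exact add_subset (fun W h => List.mem_append_left _ h) g3
      · exact add_subset (fun W h => List.mem_append_right _ h) (h3 W hW)

end Pool.Agent.H84BD
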